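import Mathlib

/-! B1 (60 minutes). Normalised heights of vectors of length 3; everything follows quickly from
Mathlib/NumberTheory/Height/Basic.lean and MvPolynomial.lean.
* `nh_cross`: the cross product `w i = v₁ j v₂ k - v₁ k v₂ j` is nonzero and `z = c • cross`
  (c ≠ 0), because both are orthogonal to the independent vectors `v`, `w`
  (for instance: if `z 2 ≠ 0` ..., or: cross × z = 0 by the identity
  `(v × w) × z = w (v · z) - v (w · z) = 0`, so `cross i * z j = cross j * z i`, take an `i` with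
  `cross i ≠ 0`, `c = z i / cross i`). Then `logHeight_smul_eq_logHeight`, and
  `logHeight_linearMap_apply_le` for the Segre vector `fun a : Fin 3 × Fin 3 => v a.1 * w a.2`
  (`logHeight_fun_mul_eq`) and a matrix with entries `0, 1, -1` (its height is 1: it is not
  zero, every absolute value has supremum 1), `log (card (Fin 3 × Fin 3)) = log 9`.
* `nh_inv`: `![x⁻¹, y⁻¹, 1] = (x y)⁻¹ • ![y, x, x * y]`, and `![y, x, x*y]` is a composition of the
  Segre square of `![x, y, 1]` with a map (`logHeight_comp_le`, from `mulHeight_comp_le`).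
* `nh_lower`, `nh_upper`: `logHeight_comp_le`, `logHeight_mul_le` with
  `![ξ, η, 1] = ![ξ, 1, 1] * ![1, η, 1]`, `![ξ, 1, 1] = ![ξ, 1] ∘ ![0, 1, 1]`,
  `logHeight₁_eq_logHeight`.
* `nh_neg`: scaling and signs: every absolute value of `-1` is `1` (compare the definitions, or
  `![ξ, η, -1] = ![1, 1, -1] * ![ξ, η, 1]` in both directions with `nh_mul_le` and
  `nh ![1,1,-1] = 0`). -/

open Height

namespace ETT

variable {K : Type*} [Field K] [AdmissibleAbsValues K]

/-- Normalised logarithmic height of a vector. -/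
noncomputable def nh {ι : Type*} (x : ι → K) : ℝ := logHeight x / totalWeight K

/-- Normalised logarithmic height of an element. -/
noncomputable def nh1 (x : K) : ℝ := logHeight₁ x / totalWeight K

theorem nh_nonneg (x : Fin 3 → K) : 0 ≤ nh x := by
  exact div_nonneg (logHeight_nonneg x) (Nat.cast_nonneg _)

theorem nh_mul_le (x y : Fin 3 → K) : nh (x * y) ≤ nh x + nh y := by
  unfold nh
  rw [← add_div]
  exact div_le_div_of_nonneg_right (logHeight_mul_le x y) (Nat.cast_nonneg _)

theorem nh_pow (x : Fin 3 → K) (n : ℕ) : nh (x ^ n) = n * nh x := by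
  unfold nh
  rw [logHeight_pow, mul_div_assoc]

private theorem b1_one : logHeight ![(1 : K), -1] = 0 := by
  have h : ![(1 : K), -1] = -![(-1 : K), 1] := by
    ext i
    fin_cases i <;> simp
  rw [h, logHeight_neg, ← logHeight₁_eq_logHeight, logHeight₁_neg, logHeight₁_one]

private theorem b1_one3 : logHeight ![(1 : K), 1, -1] = 0 := by
  refine le_antisymm ?_ (logHeight_nonneg _)
  have h : ![(1 : K), 1, -1] = ![(1 : K), -1] ∘ ![(0 : Fin 2), 0, 1] := by
    ext i
    fin_cases i <;> simp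
  rw [h]
  exact (logHeight_comp_le _ _).trans b1_one.le

private theorem b1_zero3 : logHeight ![(0 : K), 1, -1] = 0 := by
  refine le_antisymm ?_ (logHeight_nonneg _)
  have h : ![(0 : K), 1, -1] = (![(0 : K), 1] ∘ ![(0 : Fin 2), 1, 1]) * ![(1 : K), 1, -1] := by
    ext i
    fin_cases i <;> simp
  rw [h]
  refine (logHeight_mul_le _ _).trans ?_
  rw [b1_one3, add_zero]
  refine (logHeight_comp_le _ _).trans ?_
  rw [← logHeight₁_eq_logHeight, logHeight₁_zero]

/-- the numbers of the entries of the matrix of the cross product: `0 ↦ 0`, `1 ↦ 1`, `2 ↦ -1` -/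
private def b1_f (p : Fin 3 × (Fin 3 × Fin 3)) : Fin 3 :=
  if p.2.1 = p.1 + 1 ∧ p.2.2 = p.1 + 2 then 1 else if p.2.1 = p.1 + 2 ∧ p.2.2 = p.1 + 1 then 2 else 0

omit [AdmissibleAbsValues K] in
private theorem b1_cross (v w : Fin 3 → K) (i : Fin 3) :
    ∑ a : Fin 3 × Fin 3, (![(0 : K), 1, -1] ∘ b1_f) (i, a) * (v a.1 * w a.2) =
      v (i + 1) * w (i + 2) - v (i + 2) * w (i + 1) := by
  rw [Fintype.sum_prod_type]
  simp only [Fin.sum_univ_three, Function.comp, b1_f]
  fin_cases i <;> simp <;> ring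

theorem nh_cross (hK : 0 < totalWeight K) (v w z : Fin 3 → K) (hz : z ≠ 0)
    (h1 : ∑ i, v i * z i = 0) (h2 : ∑ i, w i * z i = 0)
    (hne : ∃ i j, v i * w j ≠ v j * w i) : nh z ≤ Real.log 9 + nh v + nh w := by
  have hW : (0 : ℝ) < totalWeight K := by exact_mod_cast hK
  have hv : v ≠ 0 := by
    rintro rfl
    obtain ⟨i, j, h⟩ := hne
    simp at h
  have hw : w ≠ 0 := by
    rintro rfl
    obtain ⟨i, j, h⟩ := hne
    simp at h
  rw [Fin.sum_univ_three] at h1 h2
  obtain ⟨c, hc⟩ : ∃ c : Fin 3 → K, c = fun i => v (i + 1) * w (i + 2) - v (i + 2) * w (i + 1) := ⟨_, rfl⟩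
  have hc0 : c 0 = v 1 * w 2 - v 2 * w 1 := by rw [hc]; rfl
  have hc1 : c 1 = v 2 * w 0 - v 0 * w 2 := by rw [hc]; rfl
  have hc2 : c 2 = v 0 * w 1 - v 1 * w 0 := by rw [hc]; rfl
  have e01 : c 0 * z 1 = c 1 * z 0 := by
    rw [hc0, hc1]
    linear_combination w 2 * h1 - v 2 * h2
  have e02 : c 0 * z 2 = c 2 * z 0 := by
    rw [hc0, hc2]
    linear_combination v 1 * h2 - w 1 * h1
  have e12 : c 1 * z 2 = c 2 * z 1 := by
    rw [hc1, hc2]
    linear_combination w 0 * h1 - v 0 * h2
  have hall : ∀ i j, c i * z j = c j * z i := by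
    intro i j
    fin_cases i <;> fin_cases j <;> simp only [Fin.zero_eta, Fin.mk_one, Fin.reduceFinMk]
    · exact e01
    · exact e02
    · exact e01.symm
    · exact e12
    · exact e02.symm
    · exact e12.symm
  have hcne : ∃ i, c i ≠ 0 := by
    by_contra hcon
    push Not at hcon
    have a0 := hcon 0
    have a1 := hcon 1
    have a2 := hcon 2
    rw [hc0, sub_eq_zero] at a0
    rw [hc1, sub_eq_zero] at a1
    rw [hc2, sub_eq_zero] at a2
    obtain ⟨i, j, h⟩ := hne
    apply h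
    fin_cases i <;> fin_cases j <;> simp only [Fin.zero_eta, Fin.mk_one, Fin.reduceFinMk]
    · exact a2
    · exact a1.symm
    · exact a2.symm
    · exact a0
    · exact a1
    · exact a0.symm
  obtain ⟨i, hi⟩ := hcne
  have hz' : z = (z i / c i) • c := by
    ext j
    rw [Pi.smul_apply, smul_eq_mul, div_mul_eq_mul_div, eq_div_iff hi]
    have := hall i j
    linear_combination this
  have hk : z i / c i ≠ 0 := by
    intro h0
    rw [h0, zero_smul] at hz'
    exact hz hz'
  have hlz : logHeight z = logHeight c := by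
    rw [hz']
    exact logHeight_smul_eq_logHeight c hk
  have hcA : c = fun j => ∑ a : Fin 3 × Fin 3, (![(0 : K), 1, -1] ∘ b1_f) (j, a) *
      (fun a : Fin 3 × Fin 3 => v a.1 * w a.2) a := by
    rw [hc]
    ext j
    exact (b1_cross v w j).symm
  have hle := logHeight_linearMap_apply_le (![(0 : K), 1, -1] ∘ b1_f) (fun a : Fin 3 × Fin 3 => v a.1 * w a.2)
  rw [← hcA, logHeight_fun_mul_eq hv hw] at hle
  have hA : logHeight (![(0 : K), 1, -1] ∘ b1_f) ≤ 0 := (logHeight_comp_le _ _).trans b1_zero3.le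
  have hcard : (Nat.card (Fin 3 × Fin 3) : ℝ) = 9 := by
    rw [Nat.card_eq_fintype_card, Fintype.card_prod, Fintype.card_fin]
    norm_num
  rw [hcard] at hle
  unfold nh
  rw [hlz, div_le_iff₀ hW, add_mul, add_mul, div_mul_cancel₀ _ hW.ne', div_mul_cancel₀ _ hW.ne']
  linarith

theorem nh_inv (x y : K) (hx : x ≠ 0) (hy : y ≠ 0) :
    nh ![x⁻¹, y⁻¹, 1] ≤ 2 * nh ![x, y, 1] := by
  unfold nh
  rw [← mul_div_assoc]
  refine div_le_div_of_nonneg_right ?_ (Nat.cast_nonneg _)
  have h1 : ![x⁻¹, y⁻¹, 1] = (x * y)⁻¹ • ![y, x, x * y] := by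
    ext i
    fin_cases i <;> simp <;> field_simp
  have h2 : ![y, x, x * y] = (fun a : Fin 3 × Fin 3 => ![x, y, 1] a.1 * ![x, y, 1] a.2) ∘
      ![((1 : Fin 3), (2 : Fin 3)), (0, 2), (0, 1)] := by
    ext i
    fin_cases i <;> simp
  have h3 : ![x, y, 1] ≠ 0 := by
    intro h
    exact hx (congrFun h 0)
  rw [h1, logHeight_smul_eq_logHeight _ (inv_ne_zero (mul_ne_zero hx hy)), h2]
  refine (logHeight_comp_le _ _).trans ?_
  rw [logHeight_fun_mul_eq h3 h3]
  linarith

theorem nh_lower (x y : K) : nh1 x ≤ nh ![x, y, 1] ∧ nh1 y ≤ nh ![x, y, 1] := by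
  unfold nh nh1
  constructor
  · refine div_le_div_of_nonneg_right ?_ (Nat.cast_nonneg _)
    have h : ![x, 1] = ![x, y, 1] ∘ ![(0 : Fin 3), 2] := by
      ext i
      fin_cases i <;> simp
    rw [logHeight₁_eq_logHeight, h]
    exact logHeight_comp_le _ _
  · refine div_le_div_of_nonneg_right ?_ (Nat.cast_nonneg _)
    have h : ![y, 1] = ![x, y, 1] ∘ ![(1 : Fin 3), 2] := by
      ext i
      fin_cases i <;> simp
    have h2 := logHeight_comp_le ![(1 : Fin 3), 2] ![x, y, 1]
    rw [← h] at h2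
    rw [logHeight₁_eq_logHeight]
    exact h2

theorem nh_upper (x y : K) : nh ![x, y, 1] ≤ nh1 x + nh1 y := by
  unfold nh nh1
  rw [← add_div]
  refine div_le_div_of_nonneg_right ?_ (Nat.cast_nonneg _)
  have h : ![x, y, 1] = (![x, 1] ∘ ![(0 : Fin 2), 1, 1]) * (![y, 1] ∘ ![(1 : Fin 2), 0, 1]) := by
    ext i
    fin_cases i <;> simp
  rw [h, logHeight₁_eq_logHeight, logHeight₁_eq_logHeight]
  refine (logHeight_mul_le _ _).trans ?_
  exact add_le_add (logHeight_comp_le ![(0 : Fin 2), 1, 1] ![x, 1]) (logHeight_comp_le ![(1 : Fin 2), 0, 1] ![y, 1])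

theorem nh_neg (x y : K) : nh ![x, y, -1] = nh ![x, y, 1] := by
  unfold nh
  congr 1
  apply le_antisymm
  · have h : ![x, y, -1] = ![(1 : K), 1, -1] * ![x, y, 1] := by
      ext i
      fin_cases i <;> simp
    rw [h]
    refine (logHeight_mul_le _ _).trans ?_
    rw [b1_one3, zero_add]
  · have h : ![x, y, 1] = ![(1 : K), 1, -1] * ![x, y, -1] := by
      ext i
      fin_cases i <;> simp
    rw [h]
    refine (logHeight_mul_le _ _).trans ?_
    rw [b1_one3, zero_add]

theorem nh_one : nh ![(1 : K), 1, -1] = 0 := by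
  unfold nh
  rw [b1_one3, zero_div]

theorem nh1_zpow (x : K) (n : ℤ) : nh1 (x ^ n) = |(n : ℝ)| * nh1 x := by
  unfold nh1
  rw [logHeight₁_zpow, Nat.cast_natAbs, Int.cast_abs, mul_div_assoc]

end ETT
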