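import Pool.Agent.Lib.MP_a7ed83_ag.W.A1
import Pool.Agent.Lib.MP_a7ed83_ag.W.A2
import Pool.Agent.Lib.MP_a7ed83_ag.W.A4

/-! B9 (80 minutes). Joint eigenhomomorphisms of two endomorphisms whose `k`-th powers commute.
PROOF. `Φ = A →+ ℂ`, `T φ = φ.comp α`, `U φ = φ.comp β`. By `expand` for `α` every `φ` is a sum of
`ψ` with `ψ ∘ α = z ψ`, `z` a root of `p` (where `ψ ≠ 0`: `p(z) ψ(x) = ψ(p(α) x) = 0`), so
`T^k` is killed by `∏ z ∈ R^k, (X - C z)`, `R^k` the set of the `k`-th powers (it kills each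
eigenvector). The same for `U^k`. Choose `φ` with `φ w ≠ 0` (`exists_hom`), and decompose it
with `eig_decomp` for `T^k`: some component `φ₁` has `φ₁ w ≠ 0` and
`φ₁ ∘ α^k = c φ₁`, `c ∈ R^k`. The subspace `Φ_c = {ψ | ψ ∘ α^k = c ψ}` is stable under `U^k`
(`β^k` commutes with `α^k`); apply `eig_decomp` to the restriction of `U^k` to `Φ_c`: some
component `ψ ∈ Φ_c` of `φ₁` has `ψ w ≠ 0`, `ψ ∘ β^k = c' ψ`, `c' ∈ R'^k`. -/

open Polynomial

namespace ETT

universe v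

private theorem B9_pow {A : Type v} [AddCommGroup A] (α : AddMonoid.End A) (ψ : A →+ ℂ) (z : ℂ)
    (h : ∀ x, ψ (α x) = z * ψ x) (n : ℕ) (x : A) : ψ ((α ^ n) x) = z ^ n * ψ x := by
  induction n generalizing x with
  | zero =>
    rw [pow_zero, pow_zero, one_mul]
    rfl
  | succ n ih =>
    have h4 : (α ^ (n + 1)) x = α ((α ^ n) x) := by
      rw [pow_succ']
      rfl
    rw [h4, h, ih, pow_succ]
    ring

private theorem B9_aeval {A : Type v} [AddCommGroup A] (α : AddMonoid.End A) (ψ : A →+ ℂ) (z : ℂ)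
    (h : ∀ x, ψ (α x) = z * ψ x) (q : ℤ[X]) (x : A) : ψ ((aeval α q) x) = aeval z q * ψ x := by
  induction q using Polynomial.induction_on' with
  | add p q hp hq =>
    rw [map_add, map_add]
    have h1 : (aeval α p + aeval α q) x = (aeval α p) x + (aeval α q) x := rfl
    rw [h1, map_add, hp, hq]
    ring
  | monomial n c =>
    rw [aeval_monomial, aeval_monomial]
    have h2 : (algebraMap ℤ (AddMonoid.End A) c * α ^ n) x = c • ((α ^ n) x) := by
      have h3 : algebraMap ℤ (AddMonoid.End A) c = (c : AddMonoid.End A) := by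
        simp
      rw [h3]
      exact AddMonoid.End.intCast_apply c ((α ^ n) x)
    rw [h2, map_zsmul, B9_pow α ψ z h, zsmul_eq_mul]
    have h4 : algebraMap ℤ ℂ c = (c : ℂ) := by simp
    rw [h4]
    ring

private theorem B9_root {A : Type v} [AddCommGroup A] (α : AddMonoid.End A) (ψ : A →+ ℂ) (z : ℂ)
    (h : ∀ x, ψ (α x) = z * ψ x) (q : ℤ[X]) (hq : aeval α q = 0) (w : A) (hw : ψ w ≠ 0) :
    aeval z q = 0 := by
  have h1 := B9_aeval α ψ z h q w
  rw [hq] at h1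
  have h2 : ψ ((0 : AddMonoid.End A) w) = 0 := by
    have h3 : (0 : AddMonoid.End A) w = 0 := rfl
    rw [h3, map_zero]
  rw [h2] at h1
  exact (mul_eq_zero.1 h1.symm).resolve_right hw

private theorem B9_indep {A : Type v} [AddCommGroup A] (γ : AddMonoid.End A) (S : Finset ℂ)
    (D : ℂ → (A →+ ℂ)) (hD : ∀ s ∈ S, ∀ x, D s (γ x) = s * D s x)
    (h0 : ∀ x, ∑ s ∈ S, D s x = 0) : ∀ s ∈ S, ∀ x, D s x = 0 := by
  classical
  intro s hs x
  have h1 : ∀ j : ℕ, ∑ t ∈ S, t ^ j * D t x = 0 := by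
    intro j
    rw [← h0 ((γ ^ j) x)]
    exact Finset.sum_congr rfl (fun t ht => (B9_pow γ (D t) t (hD t ht) j x).symm)
  have h2 : ∀ q : ℂ[X], ∑ t ∈ S, q.eval t * D t x = 0 := by
    intro q
    induction q using Polynomial.induction_on' with
    | add p q hp hq =>
      simp only [eval_add, add_mul, Finset.sum_add_distrib]
      rw [hp, hq, add_zero]
    | monomial n c =>
      simp only [eval_monomial, mul_assoc]
      rw [← Finset.mul_sum, h1, mul_zero]
  have h3 := h2 (∏ t ∈ S.erase s, (X - C t))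
  rw [Finset.sum_eq_single s] at h3
  · have h4 : (∏ t ∈ S.erase s, (X - C t)).eval s ≠ 0 := by
      rw [eval_prod]
      refine Finset.prod_ne_zero_iff.2 (fun t ht => ?_)
      rw [eval_sub, eval_X, eval_C]
      exact sub_ne_zero.2 (Finset.ne_of_mem_erase ht).symm
    exact (mul_eq_zero.1 h3).resolve_left h4
  · intro t ht hts
    have h5 : (∏ t ∈ S.erase s, (X - C t)).eval t = 0 := by
      rw [eval_prod]
      refine Finset.prod_eq_zero (Finset.mem_erase.2 ⟨hts, ht⟩) ?_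
      rw [eval_sub, eval_X, eval_C, sub_self]
    rw [h5, zero_mul]
  · intro h
    exact absurd hs h

/-- the component of `φ` for the `k`-th power -/
private theorem B9_comp {A : Type v} [AddCommGroup A] (α : AddMonoid.End A) (k : ℕ) (p : ℤ[X]) (hm : p.Monic)
    (hs : Squarefree (p.map (Int.castRingHom ℚ))) (ha : aeval α p = 0) (φ : A →+ ℂ) :
    ∃ (S : Finset ℂ) (P : ℂ → (A →+ ℂ)), (∀ x, ∑ c ∈ S, P c x = φ x) ∧
      (∀ c, ∀ x, P c ((α ^ k) x) = c * P c x) ∧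
      ∀ c ∈ S, ∀ w, P c w ≠ 0 → ∃ l : ℂ, l ^ k = c ∧ aeval l p = 0 := by
  classical
  obtain ⟨R, e, _, he1, he2⟩ := expand α p hm hs ha
  refine ⟨R.image (fun z => z ^ k), fun c => ∑ z ∈ R.filter (fun z => z ^ k = c), e z φ, ?_, ?_, ?_⟩
  · intro x
    have h1 : ∀ c, (∑ z ∈ R.filter (fun z => z ^ k = c), e z φ) x =
        ∑ z ∈ R.filter (fun z => z ^ k = c), e z φ x := fun c => by
      rw [AddMonoidHom.finsetSum_apply]
    simp only [h1]
    rw [Finset.sum_fiberwise_of_maps_to (fun z hz => Finset.mem_image_of_mem _ hz)]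
    conv_rhs => rw [he1 φ]
    rw [AddMonoidHom.finsetSum_apply]
  · intro c x
    rw [AddMonoidHom.finsetSum_apply, AddMonoidHom.finsetSum_apply, Finset.mul_sum]
    refine Finset.sum_congr rfl (fun z hz => ?_)
    rw [Finset.mem_filter] at hz
    rw [B9_pow α (e z φ) z (he2 z hz.1 φ), hz.2]
  · intro c _ w hw
    rw [AddMonoidHom.finsetSum_apply] at hw
    obtain ⟨z, hz, hzw⟩ := Finset.exists_ne_zero_of_sum_ne_zero hw
    rw [Finset.mem_filter] at hz
    exact ⟨z, hz.2, B9_root α (e z φ) z (he2 z hz.1 φ) p ha w hzw⟩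

theorem joint {A : Type v} [AddCommGroup A] (α β : AddMonoid.End A) (k : ℕ)
    (hc : α ^ k * β ^ k = β ^ k * α ^ k) (p p' : ℤ[X]) (hm : p.Monic) (hm' : p'.Monic)
    (hs : Squarefree (p.map (Int.castRingHom ℚ))) (hs' : Squarefree (p'.map (Int.castRingHom ℚ)))
    (ha : aeval α p = 0) (ha' : aeval β p' = 0) (w : A) (hw : ¬ Tors w) :
    ∃ (l m : ℂ) (ψ : A →+ ℂ), aeval l p = 0 ∧ aeval m p' = 0 ∧
      (∀ x, ψ ((α ^ k) x) = l ^ k * ψ x) ∧ (∀ x, ψ ((β ^ k) x) = m ^ k * ψ x) ∧ ψ w ≠ 0 := by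
  obtain ⟨φ, hφ⟩ := exists_hom w hw
  obtain ⟨S, P, hP1, hP2, hP3⟩ := B9_comp α k p hm hs ha φ
  rw [← hP1 w] at hφ
  obtain ⟨c, hc1, hc2⟩ := Finset.exists_ne_zero_of_sum_ne_zero hφ
  obtain ⟨l, hl1, hl2⟩ := hP3 c hc1 w hc2
  obtain ⟨S', Q, hQ1, hQ2, hQ3⟩ := B9_comp β k p' hm' hs' ha' (P c)
  have hc3 := hc2
  rw [← hQ1 w] at hc3
  obtain ⟨c', hc1', hc2'⟩ := Finset.exists_ne_zero_of_sum_ne_zero hc3
  obtain ⟨m, hm1, hm2⟩ := hQ3 c' hc1' w hc2'
  refine ⟨l, m, Q c', hl2, hm2, ?_, ?_, hc2'⟩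
  · have hcomm : ∀ x, (α ^ k) ((β ^ k) x) = (β ^ k) ((α ^ k) x) := by
      intro x
      have h1 := congrArg (fun f : AddMonoid.End A => f x) hc
      exact h1
    have h2 := B9_indep (β ^ k) S' (fun s => (Q s).comp (α ^ k) - c • Q s) (by
      intro s _ x
      have h3 : ∀ y, ((Q s).comp (α ^ k) - c • Q s) y = Q s ((α ^ k) y) - c * Q s y := fun y => rfl
      rw [h3, h3, hcomm, hQ2, hQ2]
      ring) (by
      intro x
      have h3 : ∀ s y, ((Q s).comp (α ^ k) - c • Q s) y = Q s ((α ^ k) y) - c * Q s y := fun s y => rfl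
      simp only [h3]
      rw [Finset.sum_sub_distrib, ← Finset.mul_sum, hQ1, hQ1, hP2, sub_self]) c' hc1'
    intro x
    have h3 : Q c' ((α ^ k) x) - c * Q c' x = 0 := h2 x
    rw [hl1]
    exact sub_eq_zero.1 h3
  · intro x
    rw [hm1]
    exact hQ2 c' x

end ETT
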