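import Pool.Agent.Lib.MP_a7ed83_ag.B.B8
import Pool.Agent.Lib.MP_a7ed83_ag.B.B9
import Pool.Agent.Lib.MP_a7ed83_ag.W.A6

/-! B10 (80 minutes). The uniform bound for commuting linear parts, `w` of infinite order.
PROOF. Let `B` be the constant of `two_term_complex D`; `N = k^2 * max B 1`... (`k ≤ D`: take
`D^2 * (B + 1)`). Split the set by the residues `(r, s)` of `(z.1, z.2)` modulo `k`: with
`z.1 = k m + r`, `z.2 = k n + s`, `u' = (α^r) u`, `v' = γ ((β^s) v)`,
`(α^(km)) u' - (β^(kn)) v' = w` (`γ` commutes with `β^k`). Take `l, μ, ψ` from `joint` for `w`; then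
`l^(km) ψ u' - μ^(kn) ψ v' = ψ w ≠ 0`, i.e. `(k m, k n)` is in the set of `two_term_complex` for
`a = ψ u' / ψ w`, `b = - ψ v' / ψ w` if both are nonzero, so at most `B` values of `(m, n)`. If
`ψ u' = 0`: `μ^(kn)` is determined, so `n` (`‖μ‖ > 1`), and then `z.1` is determined by
`z.2` (proof of `count_E` in A6: `eq_of_q`, `q` invariant under `γ`); similarly if
`ψ v' = 0`. So at most `max B 1` elements in each class. -/

open Height Polynomial

namespace ETT

universe v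

/-- The Weil property: all roots of the polynomial have absolute value `√δ`. -/
def Weil {A : Type v} [AddCommGroup A] (α : AddMonoid.End A) (δ : ℝ) (D : ℕ) : Prop :=
  ∃ p : ℤ[X], p.Monic ∧ p.natDegree ≤ D ∧ Squarefree (p.map (Int.castRingHom ℚ)) ∧
    aeval α p = 0 ∧ ∀ z : ℂ, aeval z p = 0 → ‖z‖ ^ 2 = δ

private theorem b10_pow {A : Type v} [AddCommGroup A] (α : AddMonoid.End A) (i : ℕ) (x : A) :
    α ((α ^ i) x) = (α ^ (i + 1)) x := by
  rw [pow_succ']
  rfl

private theorem b10_add {A : Type v} [AddCommGroup A] (α : AddMonoid.End A) (i j : ℕ) (x : A) :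
    (α ^ (i + j)) x = (α ^ i) ((α ^ j) x) := by
  rw [pow_add]
  rfl

private theorem b10_eig {A : Type v} [AddCommGroup A] (α : AddMonoid.End A) (ψ : A →+ ℂ) (z : ℂ)
    (hψ : ∀ x, ψ (α x) = z * ψ x) (n : ℕ) : ∀ x : A, ψ ((α ^ n) x) = z ^ n * ψ x := by
  induction n with
  | zero =>
    intro x
    rw [pow_zero, pow_zero, one_mul]
    rfl
  | succ n ih =>
    intro x
    rw [← b10_pow, hψ, ih, pow_succ']
    ring

private theorem b10_comm {A : Type v} [AddCommGroup A] (β γ : AddMonoid.End A)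
    (h : ∀ x, β (γ x) = γ (β x)) (n : ℕ) : ∀ x : A, γ ((β ^ n) x) = (β ^ n) (γ x) := by
  induction n with
  | zero =>
    intro x
    rw [pow_zero]
    rfl
  | succ n ih =>
    intro x
    rw [← b10_pow, ← h, ih, b10_pow]

private theorem b10_inj (m : ℂ) (e : ℝ) (he : 1 < e) (hm : ‖m‖ ^ 2 = e) (i j : ℕ) (h : m ^ i = m ^ j) :
    i = j := by
  have h1 : 1 < ‖m‖ := by
    by_contra hcon
    push Not at hcon
    have := pow_le_one₀ (n := 2) (norm_nonneg m) hcon
    linarith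
  have h2 : ‖m‖ ^ i = ‖m‖ ^ j := by rw [← norm_pow, ← norm_pow, h]
  exact pow_right_injective₀ (by linarith) h1.ne' h2

theorem count_comm (D : ℕ) : ∃ N : ℕ, ∀ (A : Type v) [AddCommGroup A] (q : A → ℝ)
    (α β γ : AddMonoid.End A) (δ ε : ℝ) (k : ℕ) (u v w : A), QD q α δ D → QD q β ε D →
    Weil α δ D → Weil β ε D → 0 < k → k ≤ D → α ^ k * β ^ k = β ^ k * α ^ k →
    β ^ k * γ = γ * β ^ k → (∀ x, q (γ x) = q x) → ¬ Tors u → ¬ Tors v → ¬ Tors w →
    {z : ℕ × ℕ | (α ^ z.1) u - γ ((β ^ z.2) v) = w}.encard ≤ N := by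
  classical
  obtain ⟨B, hB⟩ := two_term_complex D
  refine ⟨(D * D) * (B + 1), ?_⟩
  intro A _ q α β γ δ ε k u v w hα hβ hWα hWβ hk hkD hc hγβ hγ hu hv hw
  obtain ⟨p, hm, hd, hs, ha, hr⟩ := hWα
  obtain ⟨p', hm', hd', hs', ha', hr'⟩ := hWβ
  obtain ⟨l, m, ψ, hl, hmm, hψ1, hψ2, hψw⟩ := joint α β k hc p p' hm hm' hs hs' ha ha' w hw
  have hγ' : ∀ x, (β ^ k) (γ x) = γ ((β ^ k) x) :=
    fun x => congrArg (fun f : AddMonoid.End A => f x) hγβ
  have hnl := b10_inj l δ hα.one_lt (hr l hl)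
  have hnm := b10_inj m ε hβ.one_lt (hr' m hmm)
  -- the value of the equation
  have hval : ∀ r s i j : ℕ, (α ^ (k * i + r)) u - γ ((β ^ (k * j + s)) v) = w →
      l ^ (k * i) * ψ ((α ^ r) u) - m ^ (k * j) * ψ (γ ((β ^ s) v)) = ψ w := by
    intro r s i j h
    rw [← h, map_sub, b10_add α, b10_add β, pow_mul α, pow_mul β, b10_comm (β ^ k) γ hγ',
      b10_eig (α ^ k) ψ (l ^ k) hψ1, b10_eig (β ^ k) ψ (m ^ k) hψ2, ← pow_mul, ← pow_mul]
  -- one coordinate determines the other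
  have hdet : ∀ z ∈ {z : ℕ × ℕ | (α ^ z.1) u - γ ((β ^ z.2) v) = w},
      ∀ z' ∈ {z : ℕ × ℕ | (α ^ z.1) u - γ ((β ^ z.2) v) = w}, z.1 = z'.1 ∨ z.2 = z'.2 → z = z' := by
    rintro ⟨m₁, n⟩ hz ⟨m', n'⟩ hz' h
    have h1 : (α ^ m₁) u - γ ((β ^ n) v) = w := hz
    have h2 : (α ^ m') u - γ ((β ^ n') v) = w := hz'
    rcases h with h | h
    · simp only at h
      subst h
      have h3 : γ ((β ^ n) v) = γ ((β ^ n') v) := by
        have := h1.trans h2.symm
        exact sub_right_inj.1 this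
      have h4 := congrArg q h3
      rw [hγ, hγ] at h4
      rw [eq_of_q hβ v hv n n' h4]
    · simp only at h
      subst h
      have h3 : (α ^ m₁) u = (α ^ m') u := by
        have := h1.trans h2.symm
        exact sub_left_inj.1 this
      rw [eq_of_q hα u hu m₁ m' (congrArg q h3)]
  have hcover : {z : ℕ × ℕ | (α ^ z.1) u - γ ((β ^ z.2) v) = w} ⊆
      ⋃ c ∈ Finset.range k ×ˢ Finset.range k,
        {z : ℕ × ℕ | (α ^ z.1) u - γ ((β ^ z.2) v) = w ∧ z.1 % k = c.1 ∧ z.2 % k = c.2} := by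
    intro z hz
    rw [Set.mem_iUnion₂]
    refine ⟨(z.1 % k, z.2 % k), ?_, hz, rfl, rfl⟩
    rw [Finset.mem_product, Finset.mem_range, Finset.mem_range]
    exact ⟨Nat.mod_lt _ hk, Nat.mod_lt _ hk⟩
  refine (Set.encard_le_encard hcover).trans ?_
  have hclass : ∀ c ∈ Finset.range k ×ˢ Finset.range k,
      {z : ℕ × ℕ | (α ^ z.1) u - γ ((β ^ z.2) v) = w ∧ z.1 % k = c.1 ∧ z.2 % k = c.2}.encard ≤
        ((B + 1 : ℕ) : ℕ∞) := by
    rintro ⟨r, s⟩ _
    simp only
    have hz1 : ∀ z : ℕ × ℕ, z.1 % k = r → z.1 = k * (z.1 / k) + r := fun z h => by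
      rw [← h]
      exact (Nat.div_add_mod _ _).symm
    have hz2 : ∀ z : ℕ × ℕ, z.2 % k = s → z.2 = k * (z.2 / k) + s := fun z h => by
      rw [← h]
      exact (Nat.div_add_mod _ _).symm
    have hsub : ∀ z ∈ {z : ℕ × ℕ | (α ^ z.1) u - γ ((β ^ z.2) v) = w ∧ z.1 % k = r ∧ z.2 % k = s},
        l ^ (k * (z.1 / k)) * ψ ((α ^ r) u) - m ^ (k * (z.2 / k)) * ψ (γ ((β ^ s) v)) = ψ w := by
      rintro z ⟨h1, h2, h3⟩
      refine hval r s _ _ ?_
      rw [← hz1 z h2, ← hz2 z h3]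
      exact h1
    by_cases hA : ψ ((α ^ r) u) = 0
    · have h1 : {z : ℕ × ℕ | (α ^ z.1) u - γ ((β ^ z.2) v) = w ∧ z.1 % k = r ∧ z.2 % k = s}.encard ≤ 1 := by
        rw [Set.encard_le_one_iff]
        intro z z' hz hz'
        refine hdet z hz.1 z' hz'.1 (Or.inr ?_)
        have e1 := hsub z hz
        have e2 := hsub z' hz'
        rw [hA, mul_zero, zero_sub] at e1 e2
        have hne : ψ (γ ((β ^ s) v)) ≠ 0 := by
          intro h0
          rw [h0, mul_zero, neg_zero] at e1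
          exact hψw e1.symm
        have e3 : m ^ (k * (z.2 / k)) = m ^ (k * (z'.2 / k)) :=
          mul_right_cancel₀ hne (neg_injective (e1.trans e2.symm))
        rw [hz2 z hz.2.2, hz2 z' hz'.2.2, hnm _ _ e3]
      refine h1.trans ?_
      exact_mod_cast Nat.le_add_left 1 B
    · by_cases hC : ψ (γ ((β ^ s) v)) = 0
      · have h1 : {z : ℕ × ℕ | (α ^ z.1) u - γ ((β ^ z.2) v) = w ∧ z.1 % k = r ∧ z.2 % k = s}.encard ≤ 1 := by
          rw [Set.encard_le_one_iff]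
          intro z z' hz hz'
          refine hdet z hz.1 z' hz'.1 (Or.inl ?_)
          have e1 := hsub z hz
          have e2 := hsub z' hz'
          rw [hC, mul_zero, sub_zero] at e1 e2
          have e3 : l ^ (k * (z.1 / k)) = l ^ (k * (z'.1 / k)) :=
            mul_right_cancel₀ hA (e1.trans e2.symm)
          rw [hz1 z hz.2.1, hz1 z' hz'.2.1, hnl _ _ e3]
        refine h1.trans ?_
        exact_mod_cast Nat.le_add_left 1 B
      · have h1 := hB p p' δ ε hm hm' hd hd' hα.one_lt hβ.one_lt hr hr' l m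
          (ψ ((α ^ r) u) / ψ w) (-ψ (γ ((β ^ s) v)) / ψ w) hl hmm (div_ne_zero hA hψw)
          (div_ne_zero (neg_ne_zero.2 hC) hψw)
        have h2 : {z : ℕ × ℕ | (α ^ z.1) u - γ ((β ^ z.2) v) = w ∧ z.1 % k = r ∧ z.2 % k = s} ⊆
            (fun z : ℕ × ℕ => (z.1 + r, z.2 + s)) ''
              {z : ℕ × ℕ | ψ ((α ^ r) u) / ψ w * l ^ z.1 + -ψ (γ ((β ^ s) v)) / ψ w * m ^ z.2 = 1} := by
          intro z hz
          refine ⟨(k * (z.1 / k), k * (z.2 / k)), ?_, ?_⟩
          · have e1 := hsub z hz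
            show ψ ((α ^ r) u) / ψ w * l ^ (k * (z.1 / k)) +
              -ψ (γ ((β ^ s) v)) / ψ w * m ^ (k * (z.2 / k)) = 1
            rw [div_mul_eq_mul_div, div_mul_eq_mul_div, ← add_div, div_eq_one_iff_eq hψw, ← e1]
            ring
          · simp only
            rw [← hz1 z hz.2.1, ← hz2 z hz.2.2]
        refine ((Set.encard_le_encard h2).trans (Set.encard_image_le _ _)).trans (h1.trans ?_)
        exact_mod_cast Nat.le_succ B
  refine (encard_biUnion_le' _ _ (B + 1) hclass).trans ?_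
  rw [Finset.card_product, Finset.card_range]
  exact_mod_cast Nat.mul_le_mul_right _ (Nat.mul_le_mul hkD hkD)

end ETT
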