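import Pool.Agent.Lib.MP_a7ed83_ag.B.B10
import Pool.Agent.Lib.MP_a7ed83_ag.W.A8b

/-! B11 (90 minutes). Eventual periodicity without Skolem-Mahler-Lech, for commuting linear parts.
PROOF. (1) `ep_zero_of_tors` is the proof of `ep_zero` in A8b (which uses `ep_tors` only once; copy
it). (2) `ep_tors_comm`: let `s l = α^(k a l) y - γ β^(k b l) y' - w`, `w` torsion. By `joint`,
`s l` is torsion iff `ψ (s l) = 0` for all `ψ` in the finitely many joint eigenspaces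
`Φ_{c,c'} = {ψ | ψ ∘ α^k = c ψ, ψ ∘ β^k = c' ψ}`, `c = λ^k`, `c' = μ^k`, `λ`, `μ` roots of `p`, `p'` (nonzero:
`‖·‖^2 = δ > 1`), i.e. `ρ^l ψ(y) = σ^l ψ(γ y')` with `ρ = c^a`, `σ = c'^b` (`ψ w = 0`; `γ` commutes
with `β^k`). For fixed `(c,c')` let `Z = {l | ∀ ψ ∈ Φ_{c,c'}, ρ^l ψ(y) = σ^l ψ(γ y')}`. If
`ψ(y) = ψ(γ y') = 0` for all `ψ`, `Z` is everything. Otherwise let `ψ₀` have a nonzero value; if
`Z` has at most one element it is EP (finite). If `l₁ < l₂` are in `Z` then both values of `ψ₀`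
are nonzero and `(ρ/σ)^(l₂-l₁) = 1`, so with `t = l₂ - l₁`: `l ∈ Z ↔ l + t ∈ Z` (for every `ψ`:
`(ρ/σ)^l ψ(y) = ψ(γ y')`). So `Z` is EP; intersect over the finitely many pairs
(`EP.biInter`). -/

open Height Polynomial

namespace ETT

universe v

private theorem b11_pow {A : Type v} [AddCommGroup A] (α : AddMonoid.End A) (i : ℕ) (x : A) :
    α ((α ^ i) x) = (α ^ (i + 1)) x := by
  rw [pow_succ']
  rfl

private theorem b11_stab {A : Type v} [AddCommGroup A] (α : AddMonoid.End A) (M : Submodule ℤ A)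
    (hα : ∀ y ∈ M, α y ∈ M) (m : ℕ) : ∀ y ∈ M, (α ^ m) y ∈ M := by
  induction m with
  | zero =>
    intro y hy
    rw [pow_zero]
    exact hy
  | succ m ih =>
    intro y hy
    rw [← b11_pow]
    exact hα _ (ih y hy)

/-- multiples of the period -/
private theorem b11_mult {A : Type v} [AddCommGroup A] (α : AddMonoid.End A) (M : Submodule ℤ A) (x : A) (k a L N : ℕ)
    (h : ∀ n ≥ N, ∃ y ∈ M, (α ^ (a * (n + L))) x - (α ^ (a * n)) x = k • y) (t : ℕ) :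
    ∀ n ≥ N, ∃ y ∈ M, (α ^ (a * (n + L * t))) x - (α ^ (a * n)) x = k • y := by
  induction t with
  | zero =>
    intro n _
    refine ⟨0, zero_mem _, ?_⟩
    rw [Nat.mul_zero, Nat.add_zero, sub_self, smul_zero]
  | succ t ih =>
    intro n hn
    obtain ⟨y, hy, e1⟩ := ih n hn
    obtain ⟨z, hz, e2⟩ := h (n + L * t) (by omega)
    refine ⟨y + z, add_mem hy hz, ?_⟩
    have e3 : n + L * (t + 1) = n + L * t + L := by ring
    rw [e3, smul_add, ← e1, ← e2]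
    abel

theorem ep_zero_of_tors {A : Type v} [AddCommGroup A] {α β γ : AddMonoid.End A}
    (p p' : ℤ[X]) (hm : p.Monic) (hm' : p'.Monic) (ha : aeval α p = 0) (ha' : aeval β p' = 0)
    (y y' w : A) (a b : ℕ)
    (h : EP {l : ℕ | Tors ((α ^ (a * l)) y - γ ((β ^ (b * l)) y') - w)}) :
    EP {l : ℕ | (α ^ (a * l)) y - γ ((β ^ (b * l)) y') = w} := by
  obtain ⟨M₁, hM₁, hy, hst₁⟩ := orbit_fg α p hm ha y
  obtain ⟨M₂, hM₂, hy', hst₂⟩ := orbit_fg β p' hm' ha' y'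
  let g : A →ₗ[ℤ] A := AddMonoidHom.toIntLinearMap γ
  have hg : ∀ z, g z = γ z := fun _ => rfl
  let M : Submodule ℤ A := M₁ ⊔ M₂.map g ⊔ Submodule.span ℤ {w}
  have hM : M.FG := (hM₁.sup (hM₂.map g)).sup (Submodule.fg_span_singleton w)
  have i₁ : ∀ z ∈ M₁, z ∈ M := fun z hz => Submodule.mem_sup_left (Submodule.mem_sup_left hz)
  have i₂ : ∀ z ∈ M₂, γ z ∈ M := fun z hz =>
    Submodule.mem_sup_left (Submodule.mem_sup_right (Submodule.mem_map_of_mem (f := g) hz))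
  have i₃ : w ∈ M := Submodule.mem_sup_right (Submodule.mem_span_singleton_self w)
  obtain ⟨k, hk, hkt⟩ := tors_exponent M hM
  obtain ⟨L₁, N₁, hL₁, h₁⟩ := orbit_mod α M₁ hM₁ hst₁ y hy k a hk
  obtain ⟨L₂, N₂, hL₂, h₂⟩ := orbit_mod β M₂ hM₂ hst₂ y' hy' k b hk
  have hs : ∀ l : ℕ, (α ^ (a * l)) y - γ ((β ^ (b * l)) y') - w ∈ M := fun l =>
    sub_mem (sub_mem (i₁ _ (b11_stab α M₁ hst₁ _ y hy)) (i₂ _ (b11_stab β M₂ hst₂ _ y' hy'))) i₃
  have hEP : EP {l : ℕ | ∃ x ∈ M, (α ^ (a * l)) y - γ ((β ^ (b * l)) y') - w = k • x} := by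
    refine ⟨L₁ * L₂, max N₁ N₂, Nat.mul_pos hL₁ hL₂, fun n hn => ?_⟩
    obtain ⟨z₁, hz₁, e₁⟩ := b11_mult α M₁ y k a L₁ N₁ h₁ L₂ n ((le_max_left _ _).trans hn)
    obtain ⟨z₂, hz₂, e₂⟩ := b11_mult β M₂ y' k b L₂ N₂ h₂ L₁ n ((le_max_right _ _).trans hn)
    rw [Nat.mul_comm L₂ L₁] at e₂
    have e₃ : ((α ^ (a * (n + L₁ * L₂))) y - γ ((β ^ (b * (n + L₁ * L₂))) y') - w) -
        ((α ^ (a * n)) y - γ ((β ^ (b * n)) y') - w) = k • (z₁ - γ z₂) := by
      have e₄ : γ ((β ^ (b * (n + L₁ * L₂))) y') - γ ((β ^ (b * n)) y') = k • γ z₂ := by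
        rw [← map_sub, e₂, map_nsmul]
      rw [smul_sub, ← e₁, ← e₄]
      abel
    have hz : z₁ - γ z₂ ∈ M := sub_mem (i₁ _ hz₁) (i₂ _ hz₂)
    constructor
    · rintro ⟨x, hx, e⟩
      refine ⟨x + (z₁ - γ z₂), add_mem hx hz, ?_⟩
      rw [smul_add, ← e, ← e₃]
      abel
    · rintro ⟨x, hx, e⟩
      refine ⟨x - (z₁ - γ z₂), sub_mem hx hz, ?_⟩
      rw [smul_sub, ← e, ← e₃]
      abel
  have hset : {l : ℕ | (α ^ (a * l)) y - γ ((β ^ (b * l)) y') = w} =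
      {l : ℕ | Tors ((α ^ (a * l)) y - γ ((β ^ (b * l)) y') - w)} ∩
        {l : ℕ | ∃ x ∈ M, (α ^ (a * l)) y - γ ((β ^ (b * l)) y') - w = k • x} := by
    ext l
    constructor
    · intro hl
      have h0 : (α ^ (a * l)) y - γ ((β ^ (b * l)) y') - w = 0 := sub_eq_zero.2 hl
      refine ⟨⟨1, one_pos, ?_⟩, ⟨0, zero_mem _, ?_⟩⟩
      · rw [h0, smul_zero]
      · rw [h0, smul_zero]
    · rintro ⟨⟨j, hj, e⟩, x, hx, ex⟩
      have h1 : Tors x := by
        refine ⟨j * k, Nat.mul_pos hj hk, ?_⟩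
        rw [ex, smul_smul] at e
        exact e
      rw [hkt x hx h1] at ex
      exact sub_eq_zero.1 ex
  rw [hset]
  exact EP.inter h hEP

/-- sets of exponents given by two term conditions -/
private theorem b11_two (S : Set (ℂ × ℂ)) (r s : ℂ) (hr : r ≠ 0) (hs : s ≠ 0) :
    EP {l : ℕ | ∀ c ∈ S, r ^ l * c.1 = s ^ l * c.2} := by
  by_cases h : ∃ i j : ℕ, i < j ∧ (∀ c ∈ S, r ^ i * c.1 = s ^ i * c.2) ∧
      (∀ c ∈ S, r ^ j * c.1 = s ^ j * c.2)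
  · obtain ⟨i, j, hij, hi, hj⟩ := h
    by_cases h0 : ∃ c ∈ S, c.1 ≠ 0
    · obtain ⟨c, hc, hc1⟩ := h0
      have e1 := hi c hc
      have e2 := hj c hc
      obtain ⟨t, ht⟩ : ∃ t, j = i + t := ⟨j - i, by omega⟩
      have ht0 : 0 < t := by omega
      have hne : r ^ i * c.1 ≠ 0 := mul_ne_zero (pow_ne_zero _ hr) hc1
      have hrs : r ^ t = s ^ t := by
        rw [ht, pow_add, pow_add] at e2
        have e3 : r ^ t * (r ^ i * c.1) = s ^ t * (r ^ i * c.1) := by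
          calc r ^ t * (r ^ i * c.1) = r ^ i * r ^ t * c.1 := by ring
            _ = s ^ i * s ^ t * c.2 := e2
            _ = s ^ t * (s ^ i * c.2) := by ring
            _ = s ^ t * (r ^ i * c.1) := by rw [e1]
        exact mul_right_cancel₀ hne e3
      refine ⟨t, 0, ht0, fun n _ => ?_⟩
      constructor
      · intro hn d hd
        have hn' := hn d hd
        rw [pow_add, pow_add, hrs]
        linear_combination s ^ t * hn'
      · intro hn d hd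
        have hn' := hn d hd
        rw [pow_add, pow_add, hrs] at hn'
        refine mul_left_cancel₀ (pow_ne_zero t hs) ?_
        linear_combination hn'
    · push Not at h0
      have h1 : ∀ c ∈ S, c.2 = 0 := by
        intro c hc
        have e1 := hi c hc
        rw [h0 c hc, mul_zero] at e1
        rcases mul_eq_zero.1 e1.symm with e | e
        · exact absurd e (pow_ne_zero _ hs)
        · exact e
      refine ⟨1, 0, one_pos, fun n _ => ?_⟩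
      constructor
      · intro _ d hd
        rw [h0 d hd, h1 d hd, mul_zero, mul_zero]
      · intro _ d hd
        rw [h0 d hd, h1 d hd, mul_zero, mul_zero]
  · by_cases he : ∃ i : ℕ, ∀ c ∈ S, r ^ i * c.1 = s ^ i * c.2
    · obtain ⟨i, hi⟩ := he
      refine ⟨1, i + 1, one_pos, fun n hn => ?_⟩
      constructor
      · intro h1
        exact absurd ⟨i, n, by omega, hi, h1⟩ h
      · intro h1
        exact absurd ⟨i, n + 1, by omega, hi, h1⟩ h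
    · refine ⟨1, 0, one_pos, fun n _ => ?_⟩
      constructor
      · intro h1
        exact absurd ⟨n, h1⟩ he
      · intro h1
        exact absurd ⟨n + 1, h1⟩ he

private theorem b11_eig {A : Type v} [AddCommGroup A] (α : AddMonoid.End A) (ψ : A →+ ℂ) (z : ℂ)
    (hψ : ∀ x, ψ (α x) = z * ψ x) (n : ℕ) : ∀ x : A, ψ ((α ^ n) x) = z ^ n * ψ x := by
  induction n with
  | zero =>
    intro x
    rw [pow_zero, pow_zero, one_mul]
    rfl
  | succ n ih =>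
    intro x
    rw [← b11_pow, hψ, ih, pow_succ']
    ring

private theorem b11_comm {A : Type v} [AddCommGroup A] (β γ : AddMonoid.End A)
    (h : ∀ x, β (γ x) = γ (β x)) (n : ℕ) : ∀ x : A, γ ((β ^ n) x) = (β ^ n) (γ x) := by
  induction n with
  | zero =>
    intro x
    rw [pow_zero]
    rfl
  | succ n ih =>
    intro x
    rw [← b11_pow, ← h, ih, b11_pow]

private theorem b11_tors {A : Type v} [AddCommGroup A] (x : A) (hx : Tors x) (φ : A →+ ℂ) : φ x = 0 := by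
  obtain ⟨k, hk, hx⟩ := hx
  have h1 : φ (k • x) = 0 := by rw [hx, map_zero]
  rw [map_nsmul, nsmul_eq_mul] at h1
  rcases mul_eq_zero.1 h1 with h2 | h2
  · exact absurd (Nat.cast_eq_zero.1 h2) (by omega)
  · exact h2

theorem ep_tors_comm {A : Type v} [AddCommGroup A] {α β γ : AddMonoid.End A} {δ ε : ℝ} {D : ℕ}
    (hα : Weil α δ D) (hβ : Weil β ε D) (hδ : 1 < δ) (hε : 1 < ε) (k : ℕ)
    (hc : α ^ k * β ^ k = β ^ k * α ^ k) (hγ : β ^ k * γ = γ * β ^ k)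
    (y y' w : A) (hw : Tors w) (a b : ℕ) :
    EP {l : ℕ | Tors ((α ^ (k * a * l)) y - γ ((β ^ (k * b * l)) y') - w)} := by
  classical
  obtain ⟨p, hm, _, hs, ha, hr⟩ := hα
  obtain ⟨p', hm', _, hs', ha', hr'⟩ := hβ
  have hγ' : ∀ x, (β ^ k) (γ x) = γ ((β ^ k) x) := fun x => congrArg (fun f : AddMonoid.End A => f x) hγ
  have hval : ∀ (l m : ℂ) (ψ : A →+ ℂ), (∀ x, ψ ((α ^ k) x) = l ^ k * ψ x) →
      (∀ x, ψ ((β ^ k) x) = m ^ k * ψ x) → ∀ n : ℕ,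
      ψ ((α ^ (k * a * n)) y - γ ((β ^ (k * b * n)) y') - w) =
        (l ^ (k * a)) ^ n * ψ y - (m ^ (k * b)) ^ n * ψ (γ y') := by
    intro l m ψ h1 h2 n
    rw [map_sub, map_sub, b11_tors w hw ψ, sub_zero, mul_assoc k a n, mul_assoc k b n, pow_mul α, pow_mul β,
      b11_comm (β ^ k) γ hγ', b11_eig (α ^ k) ψ (l ^ k) h1, b11_eig (β ^ k) ψ (m ^ k) h2]
    rw [← pow_mul, ← pow_mul, ← pow_mul, ← pow_mul, mul_assoc, mul_assoc]
  have hEP : EP {n : ℕ | ∀ z ∈ (p.aroots ℂ).toFinset ×ˢ (p'.aroots ℂ).toFinset, n ∈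
      {n : ℕ | ∀ c ∈ {c : ℂ × ℂ | ∃ ψ : A →+ ℂ, (∀ x, ψ ((α ^ k) x) = z.1 ^ k * ψ x) ∧
        (∀ x, ψ ((β ^ k) x) = z.2 ^ k * ψ x) ∧ c = (ψ y, ψ (γ y'))},
        (z.1 ^ (k * a)) ^ n * c.1 = (z.2 ^ (k * b)) ^ n * c.2}} := by
    refine EP.biInter ((p.aroots ℂ).toFinset ×ˢ (p'.aroots ℂ).toFinset) (fun z => {n : ℕ | ∀ c ∈ {c : ℂ × ℂ | ∃ ψ : A →+ ℂ, (∀ x, ψ ((α ^ k) x) = z.1 ^ k * ψ x) ∧
        (∀ x, ψ ((β ^ k) x) = z.2 ^ k * ψ x) ∧ c = (ψ y, ψ (γ y'))},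
        (z.1 ^ (k * a)) ^ n * c.1 = (z.2 ^ (k * b)) ^ n * c.2}) fun z hz => ?_
    rw [Finset.mem_product, Multiset.mem_toFinset, Multiset.mem_toFinset, mem_aroots, mem_aroots] at hz
    have n1 : z.1 ≠ 0 := by
      intro h0
      have := hr z.1 hz.1.2
      rw [h0, norm_zero] at this
      norm_num at this
      linarith
    have n2 : z.2 ≠ 0 := by
      intro h0
      have := hr' z.2 hz.2.2
      rw [h0, norm_zero] at this
      norm_num at this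
      linarith
    exact b11_two _ _ _ (pow_ne_zero _ n1) (pow_ne_zero _ n2)
  have hset : {l : ℕ | Tors ((α ^ (k * a * l)) y - γ ((β ^ (k * b * l)) y') - w)} =
      {n : ℕ | ∀ z ∈ (p.aroots ℂ).toFinset ×ˢ (p'.aroots ℂ).toFinset, n ∈
      {n : ℕ | ∀ c ∈ {c : ℂ × ℂ | ∃ ψ : A →+ ℂ, (∀ x, ψ ((α ^ k) x) = z.1 ^ k * ψ x) ∧
        (∀ x, ψ ((β ^ k) x) = z.2 ^ k * ψ x) ∧ c = (ψ y, ψ (γ y'))},
        (z.1 ^ (k * a)) ^ n * c.1 = (z.2 ^ (k * b)) ^ n * c.2}} := by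
    ext n
    constructor
    · rintro hn z _ c ⟨ψ, h1, h2, rfl⟩
      have h3 := hval z.1 z.2 ψ h1 h2 n
      rw [b11_tors _ hn ψ] at h3
      exact (sub_eq_zero.1 h3.symm)
    · intro hn
      by_contra hT
      obtain ⟨l, m, ψ, hl, hmm, h1, h2, h3⟩ := joint α β k hc p p' hm hm' hs hs' ha ha' _ hT
      have hz : ((l, m) : ℂ × ℂ) ∈ (p.aroots ℂ).toFinset ×ˢ (p'.aroots ℂ).toFinset := by
        rw [Finset.mem_product, Multiset.mem_toFinset, Multiset.mem_toFinset, mem_aroots, mem_aroots]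
        exact ⟨⟨hm.ne_zero, hl⟩, ⟨hm'.ne_zero, hmm⟩⟩
      have h4 := hn (l, m) hz (ψ y, ψ (γ y')) ⟨ψ, h1, h2, rfl⟩
      rw [hval l m ψ h1 h2 n] at h3
      exact h3 (sub_eq_zero.2 h4)
  rw [hset]
  exact hEP

end ETT
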