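import Pool.Agent.Lib.MP_a7ed83_ag.W.A9
import Pool.Agent.Lib.MP_a7ed83_ag.W.A10
import Pool.Agent.Lib.MP_a7ed83_ag.W.A11

/-! B12 (helper21). Assembly: from the count for `w` of infinite order and eventual periodicity
for `w` of finite order to the statement about orbits. -/

open Polynomial

namespace ETT

universe u v

theorem mul_ap {A : Type v} [AddCommGroup A] (a b : AddMonoid.End A) (x : A) :
    (a * b) x = a (b x) := rfl

theorem Lift.QD' {D : ℕ} {X : Type u} {A : Type v} [AddCommGroup A] {C : Cover D X A}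
    {f : X → X} (F : Lift C f) : QD C.q F.α F.δ D :=
  ⟨C.qpos, C.qsmul, F.one_lt, F.eig, F.poly⟩

theorem QD.pow {D : ℕ} {A : Type v} [AddCommGroup A] {q : A → ℝ} {α : AddMonoid.End A} {δ : ℝ}
    (h : QD q α δ D) (m : ℕ) (x : A) : q ((α ^ m) x) = δ ^ m * q x := by
  induction m with
  | zero => simp
  | succ m ih =>
    rw [pow_succ', pow_succ', mul_ap, h.eig, ih, mul_assoc]

theorem QD.pos' {D : ℕ} {A : Type v} [AddCommGroup A] {q : A → ℝ} {α : AddMonoid.End A} {δ : ℝ}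
    (h : QD q α δ D) (x : A) (hx : ¬ Tors x) : 0 < q x :=
  h.pos x fun k hk h0 => hx ⟨k, hk, h0⟩

theorem iter_lift {D : ℕ} {X : Type u} {A : Type v} [AddCommGroup A] {C : Cover D X A}
    {f : X → X} (F : Lift C f) (m : ℕ) (x : A) :
    f^[m] (C.π (F.z + x)) = C.π (F.z + (F.α ^ m) x) := by
  induction m generalizing x with
  | zero => simp
  | succ m ih =>
    rw [Function.iterate_succ_apply, F.lift, ih, pow_succ, mul_ap]

theorem encard_biUnion_le2 {ι α : Type*} (s : Finset ι) (f : ι → Set α) (N : ℕ)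
    (h : ∀ i ∈ s, (f i).encard ≤ N) : (⋃ i ∈ s, f i).encard ≤ (s.card * N : ℕ) := by
  classical
  induction s using Finset.induction_on with
  | empty => simp
  | insert i s hi ih =>
    rw [Finset.set_biUnion_insert, Finset.card_insert_of_notMem hi]
    refine (Set.encard_union_le _ _).trans ?_
    have := add_le_add (h i (Finset.mem_insert_self _ _))
      (ih fun i' h' => h i' (Finset.mem_insert_of_mem h'))
    refine this.trans (le_of_eq ?_)
    push_cast
    ring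

theorem assemble {D N₁ : ℕ} {X : Type u} {A : Type v} [AddCommGroup A]
    (C : Cover D X A) {f g : X → X} (F : Lift C f) (G : Lift C g) (P Q : X)
    (hP : (Set.range fun n : ℕ => f^[n] P).Infinite)
    (hQ : (Set.range fun n : ℕ => g^[n] Q).Infinite)
    (hcount : ∀ γ ∈ C.Γ, ∀ u v w : A, ¬ Tors u → ¬ Tors v → ¬ Tors w →
      {z : ℕ × ℕ | (F.α ^ z.1) u - γ.1 ((G.α ^ z.2) v) = w}.encard ≤ N₁)
    (hep : ∀ γ ∈ C.Γ, ∀ (u v w : A) (m₀ a n₀ b : ℕ), Tors w →
      EP {l : ℕ | (F.α ^ (m₀ + a * l)) u - γ.1 ((G.α ^ (n₀ + b * l)) v) = w}) :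
    FinLin (Pairs f g P Q) ∧
    (∃ a b c d : ℕ, (Pairs f g P Q \ LinFam a b c d).encard ≤ (D * N₁ + 1 : ℕ)) ∧
    ((∀ m n : ℕ, 0 < m → F.δ ^ m ≠ G.δ ^ n) →
      (Pairs f g P Q).encard ≤ (D * N₁ + 1 : ℕ)) := by
  obtain ⟨P', rfl⟩ := C.surj P
  obtain ⟨Q', rfl⟩ := C.surj Q
  obtain ⟨u, rfl⟩ : ∃ u, P' = F.z + u := ⟨P' - F.z, by abel⟩
  obtain ⟨v, rfl⟩ : ∃ v, Q' = G.z + v := ⟨Q' - G.z, by abel⟩
  have hu : ¬ Tors u := not_tors_of_infinite F.QD' f (fun x => C.π (F.z + x)) F.lift u hP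
  have hv : ¬ Tors v := not_tors_of_infinite G.QD' g (fun x => C.π (G.z + x)) G.lift v hQ
  set w : AddMonoid.End A × A → A := fun γ => γ.1 G.z + γ.2 - F.z with hw
  set E : AddMonoid.End A × A → Set (ℕ × ℕ) := fun γ =>
    {z | (F.α ^ z.1) u - γ.1 ((G.α ^ z.2) v) = w γ} with hE
  have hS : ∀ z, z ∈ Pairs f g (C.π (F.z + u)) (C.π (G.z + v)) ↔ ∃ γ ∈ C.Γ, z ∈ E γ := by
    intro z
    simp only [Pairs, Set.mem_ofPred_eq, iter_lift, C.fib, hE, hw, map_add]
    refine exists_congr fun γ => and_congr_right fun _ => ?_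
    constructor
    · intro h
      have : (F.α ^ z.1) u = (γ.1 G.z + γ.1 ((G.α ^ z.2) v) + γ.2) - F.z := by
        rw [← h]; abel
      rw [this]; abel
    · intro h
      have : (F.α ^ z.1) u = (γ.1 G.z + γ.2 - F.z) + γ.1 ((G.α ^ z.2) v) := by
        rw [← h]; abel
      rw [this]; abel
  classical
  set T : Set (ℕ × ℕ) := {z | ∃ γ ∈ C.Γ, ¬ Tors (w γ) ∧ z ∈ E γ} with hT
  have hTc : T.encard ≤ (D * N₁ : ℕ) := by
    have h1 : T = ⋃ γ ∈ C.Γ.filter (fun γ => ¬ Tors (w γ)), E γ := by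
      ext z
      simp only [hT, Set.mem_ofPred_eq, Set.mem_iUnion, Finset.mem_filter, exists_prop]
      constructor
      · rintro ⟨γ, h1, h2, h3⟩; exact ⟨γ, ⟨h1, h2⟩, h3⟩
      · rintro ⟨γ, ⟨h1, h2⟩, h3⟩; exact ⟨γ, h1, h2, h3⟩
    rw [h1]
    refine (encard_biUnion_le2 _ _ N₁ ?_).trans ?_
    · intro γ hγ
      rw [Finset.mem_filter] at hγ
      exact hcount γ hγ.1 u v (w γ) hu hv hγ.2
    · exact_mod_cast Nat.mul_le_mul_right _ ((Finset.card_filter_le _ _).trans C.card)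
  have hTfin : T.Finite := Set.finite_of_encard_le_coe hTc
  have hU : 0 < C.q u := F.QD'.pos' u hu
  have hV : 0 < C.q v := G.QD'.pos' v hv
  have hline : ∀ γ ∈ C.Γ, Tors (w γ) → ∀ z ∈ E γ, F.δ ^ z.1 * C.q u = G.δ ^ z.2 * C.q v := by
    intro γ hγ ⟨k, hk, hkw⟩ z hz
    have h1 : k • (F.α ^ z.1) u = k • γ.1 ((G.α ^ z.2) v) := by
      have h2 : (F.α ^ z.1) u - γ.1 ((G.α ^ z.2) v) = w γ := hz
      rw [← sub_eq_zero, ← smul_sub, h2, hkw]
    have h3 := congrArg C.q h1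
    rw [C.qsmul, C.qsmul, C.qinv γ hγ, F.QD'.pow, G.QD'.pow] at h3
    have hk' : (k : ℝ) ^ 2 ≠ 0 := by positivity
    exact mul_left_cancel₀ hk' h3
  by_cases hne : ∃ m n : ℕ, F.δ ^ m * C.q u = G.δ ^ n * C.q v
  · obtain ⟨m₀, a, n₀, b, hl, hab, hab0⟩ := line F.δ G.δ _ _ F.one_lt G.one_lt hU hV hne
    have hsub : Pairs f g (C.π (F.z + u)) (C.π (G.z + v)) \ LinFam m₀ a n₀ b ⊆ T := by
      rintro z ⟨hz, hz'⟩
      obtain ⟨γ, hγ, hzγ⟩ := (hS z).1 hz
      refine ⟨γ, hγ, ?_, hzγ⟩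
      intro ht
      obtain ⟨l, h1, h2⟩ := (hl z.1 z.2).1 (hline γ hγ ht z hzγ)
      exact hz' ⟨l, Prod.ext h1 h2⟩
    refine ⟨?_, ⟨m₀, a, n₀, b, ?_⟩, ?_⟩
    · set Z : Set ℕ := {l | ∃ γ ∈ C.Γ.filter (fun γ => Tors (w γ)),
        l ∈ {l : ℕ | (F.α ^ (m₀ + a * l)) u - γ.1 ((G.α ^ (n₀ + b * l)) v) = w γ}}
        with hZ
      have hZ' : EP Z := EP.biUnion _ _ fun γ hγ =>
        hep γ (Finset.mem_filter.1 hγ).1 _ _ _ _ _ _ _ (Finset.mem_filter.1 hγ).2
      have hEq : Pairs f g (C.π (F.z + u)) (C.π (G.z + v)) =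
          T ∪ {x | ∃ l ∈ Z, x = (m₀ + a * l, n₀ + b * l)} := by
        ext z
        rw [hS]
        constructor
        · rintro ⟨γ, hγ, hz⟩
          by_cases ht : Tors (w γ)
          · right
            obtain ⟨l, h1, h2⟩ := (hl z.1 z.2).1 (hline γ hγ ht z hz)
            refine ⟨l, ⟨γ, Finset.mem_filter.2 ⟨hγ, ht⟩, ?_⟩, Prod.ext h1 h2⟩
            have h3 : (F.α ^ z.1) u - γ.1 ((G.α ^ z.2) v) = w γ := hz
            rw [h1, h2] at h3
            exact h3
          · left; exact ⟨γ, hγ, ht, hz⟩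
        · rintro (⟨γ, hγ, _, hz⟩ | ⟨l, ⟨γ, hγ, hz⟩, rfl⟩)
          · exact ⟨γ, hγ, hz⟩
          · exact ⟨γ, (Finset.mem_filter.1 hγ).1, hz⟩
      rw [hEq]
      exact FinLin.union (FinLin.of_finite hTfin) (FinLin.of_EP hZ' _ _ _ _)
    · refine ((Set.encard_le_encard hsub).trans hTc).trans ?_
      exact_mod_cast Nat.le_succ _
    · intro hind
      have ha : a = 0 := by
        by_contra ha
        exact hind a b (Nat.pos_of_ne_zero ha) (hab ha)
      have hb : b = 0 := hab0.1 ha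
      subst ha hb
      have h1 : Pairs f g (C.π (F.z + u)) (C.π (G.z + v)) ⊆ insert (m₀, n₀) T := by
        intro z hz
        by_cases h2 : z = (m₀, n₀)
        · exact Or.inl h2
        · right
          refine hsub ⟨hz, ?_⟩
          rintro ⟨l, hl'⟩
          exact h2 (by simpa using hl')
      refine (Set.encard_le_encard h1).trans ((Set.encard_insert_le _ _).trans ?_)
      push_cast
      exact add_le_add (by exact_mod_cast hTc) le_rfl
  · have h1 : Pairs f g (C.π (F.z + u)) (C.π (G.z + v)) ⊆ T := by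
      intro z hz
      obtain ⟨γ, hγ, hzγ⟩ := (hS z).1 hz
      refine ⟨γ, hγ, ?_, hzγ⟩
      intro ht
      exact hne ⟨_, _, hline γ hγ ht z hzγ⟩
    have h2 : (Pairs f g (C.π (F.z + u)) (C.π (G.z + v))).encard ≤ (D * N₁ + 1 : ℕ) :=
      ((Set.encard_le_encard h1).trans hTc).trans (by exact_mod_cast Nat.le_succ _)
    refine ⟨FinLin.of_finite (hTfin.subset h1), ⟨0, 0, 0, 0, ?_⟩, fun _ => h2⟩
    exact (Set.encard_le_encard Set.sdiff_subset).trans h2

/-- A set is eventually periodic if it is so on every residue class. -/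
theorem EP.of_residues {Z : Set ℕ} (k : ℕ) (hk : 0 < k)
    (h : ∀ r < k, EP {l : ℕ | k * l + r ∈ Z}) : EP Z := by
  choose! L N hL hN using h
  refine ⟨k * ∏ r ∈ Finset.range k, L r, k * (∑ r ∈ Finset.range k, N r + 1), ?_, ?_⟩
  · exact Nat.mul_pos hk (Finset.prod_pos fun r hr => hL r (Finset.mem_range.1 hr))
  · intro n hn
    have hr : n % k < k := Nat.mod_lt _ hk
    have key : ∀ t m : ℕ, N (n % k) ≤ m →
        (k * m + n % k ∈ Z ↔ k * (m + t * L (n % k)) + n % k ∈ Z) := by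
      intro t
      induction t with
      | zero => intro m _; simp
      | succ t ih =>
        intro m hm
        rw [ih m hm]
        have h1 := hN (n % k) hr (m + t * L (n % k)) (by omega)
        simp only [Set.mem_ofPred_eq] at h1
        rw [h1]
        have h2 : m + t * L (n % k) + L (n % k) = m + (t + 1) * L (n % k) := by ring
        rw [h2]
    obtain ⟨t, ht⟩ : L (n % k) ∣ ∏ r ∈ Finset.range k, L r :=
      Finset.dvd_prod_of_mem _ (Finset.mem_range.2 hr)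
    have h3 : k * (n / k) + n % k = n := Nat.div_add_mod n k
    have h4 : N (n % k) ≤ n / k := by
      have h5 : N (n % k) ≤ ∑ r ∈ Finset.range k, N r :=
        Finset.single_le_sum (f := N) (fun _ _ => Nat.zero_le _) (Finset.mem_range.2 hr)
      have h6 : ∑ r ∈ Finset.range k, N r + 1 ≤ n / k := by
        rw [Nat.le_div_iff_mul_le hk]
        linarith [hn, mul_comm (∑ r ∈ Finset.range k, N r + 1) k]
      omega
    have h7 := key t (n / k) h4
    rw [h3] at h7
    rw [h7, ht]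
    have h8 : n + k * (L (n % k) * t) = k * (n / k + t * L (n % k)) + n % k := by
      have h9 : k * (n / k + t * L (n % k)) + n % k =
          (k * (n / k) + n % k) + k * (L (n % k) * t) := by
        generalize L (n % k) = M
        ring
      rw [h9, h3]
    rw [h8]

end ETT
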