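import Pool.Agent.Lib.MP_a7ed83_ag.B.B10
import Pool.Agent.Lib.MP_a7ed83_ag.B.B11
import Pool.Agent.Lib.MP_a7ed83_ag.B.B12

/-! B13 (helper21). The theorem for commuting linear parts. -/

open Polynomial

namespace ETT

universe u v

theorem main_comm (D : ℕ) : ∃ N : ℕ, ∀ (X : Type u) (A : Type v) [AddCommGroup A]
    (C : Cover D X A) (f g : X → X) (F : Lift C f) (G : Lift C g) (P Q : X) (k : ℕ),
    Weil F.α F.δ D → Weil G.α G.δ D → 0 < k → k ≤ D → F.α ^ k * G.α ^ k = G.α ^ k * F.α ^ k →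
    (∀ γ ∈ C.Γ, G.α ^ k * γ.1 = γ.1 * G.α ^ k) →
    (Set.range fun n : ℕ => f^[n] P).Infinite → (Set.range fun n : ℕ => g^[n] Q).Infinite →
    FinLin (Pairs f g P Q) ∧
    (∃ a b c d : ℕ, (Pairs f g P Q \ LinFam a b c d).encard ≤ N) ∧
    ((∀ m n : ℕ, 0 < m → F.δ ^ m ≠ G.δ ^ n) → (Pairs f g P Q).encard ≤ N) := by
  obtain ⟨N₁, hN₁⟩ := count_comm.{v} D
  refine ⟨D * N₁ + 1, ?_⟩
  intro X A _ C f g F G P Q k hWF hWG hk hkD hc hcγ hP hQ
  refine assemble C F G P Q hP hQ ?_ ?_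
  · intro γ hγ u v w hu hv hw
    exact hN₁ A C.q F.α G.α γ.1 F.δ G.δ k u v w F.QD' G.QD' hWF hWG hk hkD hc (hcγ γ hγ)
      (C.qinv γ hγ) hu hv hw
  · intro γ hγ u v w m₀ a n₀ b hw
    refine EP.of_residues k hk fun r _ => ?_
    obtain ⟨p, hp1, _, _, hp4⟩ := F.poly
    obtain ⟨p', hp1', _, _, hp4'⟩ := G.poly
    have h1 := ep_tors_comm hWF hWG F.one_lt G.one_lt k hc (hcγ γ hγ)
      ((F.α ^ (m₀ + a * r)) u) ((G.α ^ (n₀ + b * r)) v) w hw a b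
    have h2 := ep_zero_of_tors p p' hp1 hp1' hp4 hp4' _ _ _ _ _ h1
    have hcomp : ∀ (α : AddMonoid.End A) (m a l : ℕ) (x : A),
        (α ^ (m + a * (k * l + r))) x = (α ^ (k * a * l)) ((α ^ (m + a * r)) x) := by
      intro α m a l x
      rw [← mul_ap, ← pow_add]
      congr 2
      ring
    have h3 : {l : ℕ | k * l + r ∈
        {l : ℕ | (F.α ^ (m₀ + a * l)) u - γ.1 ((G.α ^ (n₀ + b * l)) v) = w}} =
        {l : ℕ | (F.α ^ (k * a * l)) ((F.α ^ (m₀ + a * r)) u) -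
          γ.1 ((G.α ^ (k * b * l)) ((G.α ^ (n₀ + b * r)) v)) = w} := by
      ext l
      simp only [Set.mem_ofPred_eq, hcomp]
    rw [h3]
    exact h2

end ETT
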