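import Mathlib

/-! B2 (90 minutes). The explicit Pade identity.
PROOF. Over the reals. For `x : ℝ` let `g(s) = s^a (x-s)^b (1-s)^a`. Then
`∫ 0..1 g = ∫ 0..x g + ∫ x..1 g`.
(1) `∫ 0..x g = x^(a+b+1) ∑_j (-1)^j C(a,j) x^j B(a+j, b)`, `B(p,q) = ∫ 0..1 t^p (1-t)^q
= p! q! / (p+q+1)!`: substitute `s = x t` (`intervalIntegral.integral_comp_mul_left` or
`smul_integral_comp_mul_left`; for `x = 0` both sides are 0), `(1 - x t)^a` by the binomial
theorem (`sub_pow`/`add_pow`).
(2) `∫ x..1 g = (-1)^b ∫ 0..(1-x) s^a ((1-x)-s)^b (1-s)^a` (substitute `s -> 1 - s`,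
`intervalIntegral.integral_comp_sub_left`), which is (1) with `1 - x` instead of `x`.
(3) `∫ 0..1 g = ∑_j C(b,j) (-1)^j x^(b-j) B(a+j, a)` (binomial theorem for `(x-s)^b`).
Multiply by `(2a+b+1)! / (a! a! b!)`: the coefficients become
`C(a,j) B(a+j,b) (2a+b+1)!/(a! a! b!) = C(a+j,j) C(2a+b+1,a-j)` and
`C(b,j) B(a+j,a) (2a+b+1)!/(a! a! b!) = C(a+j,j) C(2a+b+1,b-j)` (factorials:
`Nat.choose_eq_factorial_div_factorial` / `Nat.cast_choose`). So the identity holds at every real
`x`; hence as polynomials over `ℝ` (`Polynomial.funext`) and over `ℤ` (`map_injective` for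
`Int.castRingHom ℝ`). The formula for `B(p,q)`: induction on `q` by parts, or
`Complex.betaIntegral`/`Real` versions if there is one for natural numbers. -/

open Polynomial

namespace ETT

/-- The numerator polynomials. -/
noncomputable def PA (a b : ℕ) : ℤ[X] :=
  ∑ j ∈ Finset.range (a + 1),
    C ((-1) ^ j * ((a + j).choose j : ℤ) * ((2 * a + b + 1).choose (a - j) : ℤ)) * X ^ j

/-- The constant terms. -/
noncomputable def PC (a b : ℕ) : ℤ[X] :=
  ∑ j ∈ Finset.range (b + 1),
    C ((-1) ^ j * ((a + j).choose j : ℤ) * ((2 * a + b + 1).choose (b - j) : ℤ)) * X ^ (b - j)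

theorem beta_nat (p q : ℕ) : ∫ t in (0 : ℝ)..1, t ^ p * (1 - t) ^ q =
    (p.factorial * q.factorial : ℝ) / (p + q + 1).factorial := by
  induction q generalizing p with
  | zero =>
    simp only [pow_zero, mul_one, integral_pow]
    rw [show p + 0 + 1 = p + 1 from rfl, Nat.factorial_succ]
    have : (p.factorial : ℝ) ≠ 0 := by positivity
    push_cast
    field_simp
    simp
  | succ q ih =>
    have hd : ∀ x ∈ Set.uIcc (0 : ℝ) 1, HasDerivAt (fun t : ℝ => t ^ (p + 1) * (1 - t) ^ (q + 1))
        ((p + 1) * (x ^ p * (1 - x) ^ (q + 1)) - (q + 1) * (x ^ (p + 1) * (1 - x) ^ q)) x := by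
      intro x _
      have h1 := hasDerivAt_pow (p + 1) x
      have h2 := ((hasDerivAt_id x).const_sub 1).pow (q + 1)
      have h3 := h1.mul h2
      refine HasDerivAt.congr_deriv h3 ?_
      simp only [id, Nat.add_sub_cancel, Pi.pow_apply]
      push_cast
      ring
    have hi := intervalIntegral.integral_eq_sub_of_hasDerivAt hd
      (by apply Continuous.intervalIntegrable; fun_prop)
    rw [intervalIntegral.integral_sub (by apply Continuous.intervalIntegrable; fun_prop)
      (by apply Continuous.intervalIntegrable; fun_prop), intervalIntegral.integral_const_mul,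
      intervalIntegral.integral_const_mul, ih (p + 1)] at hi
    simp only [sub_self, zero_pow (Nat.succ_ne_zero _), mul_zero, zero_mul] at hi
    have h5 : ((p + 1 : ℕ).factorial : ℝ) = (p + 1) * p.factorial := by
      rw [Nat.factorial_succ]; push_cast; ring
    have h6 : ((q + 1 : ℕ).factorial : ℝ) = (q + 1) * q.factorial := by
      rw [Nat.factorial_succ]; push_cast; ring
    have h7 : p + (q + 1) + 1 = p + 1 + q + 1 := by ring
    rw [h7, h6]
    rw [h5] at hi
    have h8 : (0 : ℝ) < (p + 1 + q + 1).factorial := by positivity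
    have h9 : (0 : ℝ) < p + 1 := by positivity
    have h10 : ((p : ℝ) + 1) * (∫ (x : ℝ) in (0 : ℝ)..1, x ^ p * (1 - x) ^ (q + 1)) =
      (p + 1) * (p.factorial * ((q + 1) * q.factorial) / (p + 1 + q + 1).factorial) := by
      have : ((p : ℝ) + 1) * (∫ (x : ℝ) in (0 : ℝ)..1, x ^ p * (1 - x) ^ (q + 1)) =
        (q + 1) * ((p + 1) * p.factorial * q.factorial / (p + 1 + q + 1).factorial) := by linarith
      rw [this]; ring
    exact mul_left_cancel₀ h9.ne' h10

theorem J_eq (a b : ℕ) (x : ℝ) :
    ∫ s in (0 : ℝ)..x, s ^ a * (x - s) ^ b * (1 - s) ^ a =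
      x ^ (a + b + 1) * ∑ j ∈ Finset.range (a + 1), (-1) ^ j * (a.choose j : ℝ) * x ^ j *
        (((a + j).factorial * b.factorial : ℝ) / (a + j + b + 1).factorial) := by
  have h0 := intervalIntegral.smul_integral_comp_mul_left (a := 0) (b := 1)
    (fun s : ℝ => s ^ a * (x - s) ^ b * (1 - s) ^ a) x
  rw [mul_zero, mul_one] at h0
  rw [← h0, smul_eq_mul]
  have h1 : ∀ t : ℝ, (x * t) ^ a * (x - x * t) ^ b * (1 - x * t) ^ a =
      ∑ j ∈ Finset.range (a + 1), (x ^ (a + b) * ((-1) ^ j * (a.choose j : ℝ) * x ^ j)) *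
        (t ^ (a + j) * (1 - t) ^ b) := by
    intro t
    have h2 : (1 - x * t) ^ a = ∑ j ∈ Finset.range (a + 1), (-1) ^ j * (a.choose j : ℝ) * x ^ j *
        t ^ j := by
      rw [show 1 - x * t = (- x * t) + 1 by ring, add_pow]
      apply Finset.sum_congr rfl
      intro j _
      rw [one_pow, mul_one, mul_pow, neg_pow]
      ring
    rw [h2, Finset.mul_sum]
    apply Finset.sum_congr rfl
    intro j _
    rw [show x - x * t = x * (1 - t) by ring, mul_pow, mul_pow, pow_add, pow_add]
    ring
  simp only [h1]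
  rw [intervalIntegral.integral_finsetSum (fun j _ => by
    apply Continuous.intervalIntegrable; fun_prop), Finset.mul_sum, Finset.mul_sum]
  apply Finset.sum_congr rfl
  intro j _
  rw [intervalIntegral.integral_const_mul, beta_nat]
  ring

theorem I_eq (a b : ℕ) (x : ℝ) :
    ∫ s in (0 : ℝ)..1, s ^ a * (x - s) ^ b * (1 - s) ^ a =
      ∑ j ∈ Finset.range (b + 1), (-1) ^ j * (b.choose j : ℝ) * x ^ (b - j) *
        (((a + j).factorial * a.factorial : ℝ) / (a + j + a + 1).factorial) := by
  have h1 : ∀ t : ℝ, t ^ a * (x - t) ^ b * (1 - t) ^ a =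
      ∑ j ∈ Finset.range (b + 1), ((-1) ^ j * (b.choose j : ℝ) * x ^ (b - j)) *
        (t ^ (a + j) * (1 - t) ^ a) := by
    intro t
    have h2 : (x - t) ^ b = ∑ j ∈ Finset.range (b + 1), (-1) ^ j * (b.choose j : ℝ) * x ^ (b - j) *
        t ^ j := by
      rw [show x - t = (-t) + x by ring, add_pow]
      apply Finset.sum_congr rfl
      intro j _
      rw [neg_pow]
      ring
    rw [h2, Finset.mul_sum, Finset.sum_mul]
    apply Finset.sum_congr rfl
    intro j _
    rw [pow_add]
    ring
  simp only [h1]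
  rw [intervalIntegral.integral_finsetSum (fun j _ => by
    apply Continuous.intervalIntegrable; fun_prop)]
  apply Finset.sum_congr rfl
  intro j _
  rw [intervalIntegral.integral_const_mul, beta_nat]

theorem real_pade (a b : ℕ) (x : ℝ) :
    x ^ (a + b + 1) * (∑ j ∈ Finset.range (a + 1), (-1) ^ j * (a.choose j : ℝ) * x ^ j *
        (((a + j).factorial * b.factorial : ℝ) / (a + j + b + 1).factorial)) +
    (-1) ^ b * ((1 - x) ^ (a + b + 1) * (∑ j ∈ Finset.range (a + 1), (-1) ^ j *
      (a.choose j : ℝ) * (1 - x) ^ j *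
        (((a + j).factorial * b.factorial : ℝ) / (a + j + b + 1).factorial))) =
      ∑ j ∈ Finset.range (b + 1), (-1) ^ j * (b.choose j : ℝ) * x ^ (b - j) *
        (((a + j).factorial * a.factorial : ℝ) / (a + j + a + 1).factorial) := by
  rw [← J_eq, ← J_eq, ← I_eq]
  have h2 := intervalIntegral.integral_comp_sub_left (a := x) (b := 1)
    (fun s : ℝ => s ^ a * (1 - x - s) ^ b * (1 - s) ^ a) 1
  rw [sub_self] at h2
  rw [← h2, ← intervalIntegral.integral_const_mul]
  have h3 : ∀ s : ℝ, (-1) ^ b * ((1 - s) ^ a * (1 - x - (1 - s)) ^ b * (1 - (1 - s)) ^ a) =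
      s ^ a * (x - s) ^ b * (1 - s) ^ a := by
    intro s
    rw [show 1 - x - (1 - s) = (-1) * (x - s) by ring, mul_pow, sub_sub_cancel]
    have : ((-1 : ℝ) ^ b) * (-1) ^ b = 1 := by
      rw [← mul_pow]; norm_num
    linear_combination (s ^ a * (x - s) ^ b * (1 - s) ^ a) * this
  simp only [h3]
  exact intervalIntegral.integral_add_adjacent_intervals
    (by apply Continuous.intervalIntegrable; fun_prop)
    (by apply Continuous.intervalIntegrable; fun_prop)

theorem coefA (a b j : ℕ) (hj : j ≤ a) :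
    ((2 * a + b + 1).factorial : ℝ) / (a.factorial * a.factorial * b.factorial) *
      ((a.choose j : ℝ) * (((a + j).factorial * b.factorial : ℝ) / (a + j + b + 1).factorial)) =
    ((a + j).choose j : ℝ) * ((2 * a + b + 1).choose (a - j) : ℝ) := by
  rw [Nat.cast_choose ℝ hj, Nat.cast_choose ℝ (Nat.le_add_left j a),
    Nat.cast_choose ℝ (show a - j ≤ 2 * a + b + 1 by omega), Nat.add_sub_cancel,
    show 2 * a + b + 1 - (a - j) = a + j + b + 1 by omega]
  have h1 : (a.factorial : ℝ) ≠ 0 := by positivity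
  have h2 : (b.factorial : ℝ) ≠ 0 := by positivity
  have h3 : (j.factorial : ℝ) ≠ 0 := by positivity
  have h4 : ((a - j).factorial : ℝ) ≠ 0 := by positivity
  have h5 : ((a + j + b + 1).factorial : ℝ) ≠ 0 := by positivity
  field_simp

theorem coefC (a b j : ℕ) (hj : j ≤ b) :
    ((2 * a + b + 1).factorial : ℝ) / (a.factorial * a.factorial * b.factorial) *
      ((b.choose j : ℝ) * (((a + j).factorial * a.factorial : ℝ) / (a + j + a + 1).factorial)) =
    ((a + j).choose j : ℝ) * ((2 * a + b + 1).choose (b - j) : ℝ) := by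
  rw [Nat.cast_choose ℝ hj, Nat.cast_choose ℝ (Nat.le_add_left j a),
    Nat.cast_choose ℝ (show b - j ≤ 2 * a + b + 1 by omega), Nat.add_sub_cancel,
    show 2 * a + b + 1 - (b - j) = a + j + a + 1 by omega]
  have h1 : (a.factorial : ℝ) ≠ 0 := by positivity
  have h2 : (b.factorial : ℝ) ≠ 0 := by positivity
  have h3 : (j.factorial : ℝ) ≠ 0 := by positivity
  have h4 : ((b - j).factorial : ℝ) ≠ 0 := by positivity
  have h5 : ((a + j + a + 1).factorial : ℝ) ≠ 0 := by positivity
  field_simp

theorem pade (a b : ℕ) :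
    X ^ (a + b + 1) * PA a b + C ((-1) ^ b) * (1 - X) ^ (a + b + 1) * (PA a b).comp (1 - X) =
      PC a b := by
  have hinj : Function.Injective (Polynomial.map (Int.castRingHom ℝ)) :=
    Polynomial.map_injective _ (RingHom.injective_int _)
  apply hinj
  apply Polynomial.funext
  intro x
  have hA : ∀ y : ℝ, eval y ((PA a b).map (Int.castRingHom ℝ)) =
      ((2 * a + b + 1).factorial : ℝ) / (a.factorial * a.factorial * b.factorial) *
      ∑ j ∈ Finset.range (a + 1), (-1) ^ j * (a.choose j : ℝ) * y ^ j *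
        (((a + j).factorial * b.factorial : ℝ) / (a + j + b + 1).factorial) := by
    intro y
    rw [PA, Polynomial.map_sum, eval_finsetSum, Finset.mul_sum]
    apply Finset.sum_congr rfl
    intro j hj
    have := coefA a b j (by rw [Finset.mem_range] at hj; omega)
    simp only [Polynomial.map_mul, Polynomial.map_pow, Polynomial.map_C, Polynomial.map_X,
      eval_mul, eval_pow, eval_C, eval_X]
    simp only [eq_intCast]
    push_cast
    linear_combination (-(-1 : ℝ) ^ j * y ^ j) * this
  have hC : eval x ((PC a b).map (Int.castRingHom ℝ)) =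
      ((2 * a + b + 1).factorial : ℝ) / (a.factorial * a.factorial * b.factorial) *
      ∑ j ∈ Finset.range (b + 1), (-1) ^ j * (b.choose j : ℝ) * x ^ (b - j) *
        (((a + j).factorial * a.factorial : ℝ) / (a + j + a + 1).factorial) := by
    rw [PC, Polynomial.map_sum, eval_finsetSum, Finset.mul_sum]
    apply Finset.sum_congr rfl
    intro j hj
    have := coefC a b j (by rw [Finset.mem_range] at hj; omega)
    simp only [Polynomial.map_mul, Polynomial.map_pow, Polynomial.map_C, Polynomial.map_X,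
      eval_mul, eval_pow, eval_C, eval_X]
    simp only [eq_intCast]
    push_cast
    linear_combination (-(-1 : ℝ) ^ j * x ^ (b - j)) * this
  rw [hC, ← real_pade]
  simp only [Polynomial.map_add, Polynomial.map_mul, Polynomial.map_pow, Polynomial.map_C,
    Polynomial.map_X, Polynomial.map_sub, Polynomial.map_one, Polynomial.map_comp, eval_add,
    eval_mul, eval_pow, eval_C, eval_X, eval_sub, eval_one, eval_comp, hA]
  simp only [eq_intCast]
  push_cast
  ring

end ETT
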