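import Pool.Agent.Lib.MP_a7ed83_ag.B.B2

/-! B3 (50 minutes). The determinant of two consecutive approximants.
PROOF. Let `N = 2k+1`, `D = PA k k * PC (k-1) (k+1) - PA (k-1) (k+1) * PC k k`. By `pade` (both
times with exponent `a + b + 1 = N`), `D = (1 - X)^N * G` in `ℤ[X]`:
`A₁ (X^N A₂ + s₂ (1-X)^N B₂) - A₂ (X^N A₁ + s₁ (1-X)^N B₁) = (1-X)^N (s₂ A₁ B₂ - s₁ A₂ B₁)`.
`natDegree D ≤ 2k+1` (`PA a b` has degree ≤ a, `PC a b` degree ≤ b) and the coefficient of
`X^(2k+1)` is `coeff (PA k k) k * coeff (PC (k-1) (k+1)) (k+1) = (-1)^k C(2k,k) * C(3k,k+1) ≠ 0`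
(the other product has degree ≤ 2k - 1). So `D ≠ 0`, `natDegree D = N`, `G` is a nonzero constant
`c`, and the value at `x ≠ 1` is `c (1 - x)^N ≠ 0` in characteristic 0. -/

open Polynomial

namespace ETT

theorem PA_natDegree (a b : ℕ) : (PA a b).natDegree ≤ a := by
  rw [PA]
  apply natDegree_sum_le_of_forall_le
  intro j hj
  refine (natDegree_C_mul_X_pow_le _ _).trans ?_
  rw [Finset.mem_range] at hj
  omega

theorem PC_natDegree (a b : ℕ) : (PC a b).natDegree ≤ b := by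
  rw [PC]
  apply natDegree_sum_le_of_forall_le
  intro j _
  refine (natDegree_C_mul_X_pow_le _ _).trans ?_
  omega

theorem PA_coeff (a b : ℕ) : (PA a b).coeff a ≠ 0 := by
  rw [PA, finsetSum_coeff, Finset.sum_eq_single a]
  · rw [coeff_C_mul_X_pow, if_pos rfl, Nat.sub_self, Nat.choose_zero_right]
    have h1 : ((a + a).choose a : ℤ) ≠ 0 := by
      exact_mod_cast (Nat.choose_pos (Nat.le_add_left a a)).ne'
    have h2 : ((-1 : ℤ) ^ a) ≠ 0 := pow_ne_zero _ (by norm_num)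
    push_cast
    rw [mul_one]
    exact mul_ne_zero h2 h1
  · intro j _ hj
    rw [coeff_C_mul_X_pow, if_neg (Ne.symm hj)]
  · intro h
    exact absurd (Finset.mem_range.2 (Nat.lt_succ_self a)) h

theorem PC_coeff (a b : ℕ) : (PC a b).coeff b ≠ 0 := by
  rw [PC, finsetSum_coeff, Finset.sum_eq_single 0]
  · rw [coeff_C_mul_X_pow, if_pos (Nat.sub_zero b).symm, Nat.sub_zero, Nat.choose_zero_right]
    have h1 : ((2 * a + b + 1).choose b : ℤ) ≠ 0 := by
      exact_mod_cast (Nat.choose_pos (show b ≤ 2 * a + b + 1 by omega)).ne'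
    push_cast
    rw [one_mul]
    exact h1
  · intro j hj hj0
    rw [Finset.mem_range] at hj
    rw [coeff_C_mul_X_pow, if_neg (by omega)]
  · intro h
    exact absurd (Finset.mem_range.2 (Nat.succ_pos b)) h

/-- The polynomial identity behind `det_ne`. -/
theorem det_poly (k : ℕ) (hk : 1 ≤ k) : ∃ c : ℤ, c ≠ 0 ∧
    PA k k * PC (k - 1) (k + 1) - PA (k - 1) (k + 1) * PC k k =
      (1 - X) ^ (2 * k + 1) * C c := by
  have e1 := pade k k
  have e2 := pade (k - 1) (k + 1)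
  rw [show k + k + 1 = 2 * k + 1 by ring] at e1
  rw [show k - 1 + (k + 1) + 1 = 2 * k + 1 by omega] at e2
  set D := PA k k * PC (k - 1) (k + 1) - PA (k - 1) (k + 1) * PC k k with hD
  have hG : D = (1 - X) ^ (2 * k + 1) *
      (C ((-1) ^ (k + 1)) * PA k k * (PA (k - 1) (k + 1)).comp (1 - X) -
        C ((-1) ^ k) * PA (k - 1) (k + 1) * (PA k k).comp (1 - X)) := by
    rw [hD, ← e1, ← e2]
    ring
  set G := (C ((-1) ^ (k + 1)) * PA k k * (PA (k - 1) (k + 1)).comp (1 - X) -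
        C ((-1) ^ k) * PA (k - 1) (k + 1) * (PA k k).comp (1 - X)) with hGdef
  have hdeg1 : (PA k k * PC (k - 1) (k + 1)).natDegree ≤ 2 * k + 1 :=
    (natDegree_mul_le_of_le (PA_natDegree k k) (PC_natDegree (k - 1) (k + 1))).trans (by omega)
  have hdeg2 : (PA (k - 1) (k + 1) * PC k k).natDegree ≤ 2 * k - 1 :=
    (natDegree_mul_le_of_le (PA_natDegree (k - 1) (k + 1)) (PC_natDegree k k)).trans (by omega)
  have hdegD : D.natDegree ≤ 2 * k + 1 :=
    (natDegree_sub_le _ _).trans (max_le hdeg1 (hdeg2.trans (by omega)))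
  have hcoeff : D.coeff (2 * k + 1) ≠ 0 := by
    rw [hD, coeff_sub, coeff_eq_zero_of_natDegree_lt (lt_of_le_of_lt hdeg2 (by omega)), sub_zero,
      show 2 * k + 1 = k + (k + 1) by ring,
      coeff_mul_add_eq_of_natDegree_le (PA_natDegree k k) (PC_natDegree (k - 1) (k + 1))]
    exact mul_ne_zero (PA_coeff k k) (PC_coeff (k - 1) (k + 1))
  have hD0 : D ≠ 0 := fun h => hcoeff (by rw [h, coeff_zero])
  have hG0 : G ≠ 0 := fun h => hD0 (by rw [hG, h, mul_zero])
  have h1X : (1 - X : ℤ[X]).natDegree = 1 := by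
    rw [show (1 - X : ℤ[X]) = -(X - C 1) by simp, natDegree_neg, natDegree_X_sub_C]
  have h1X0 : (1 - X : ℤ[X]) ≠ 0 := by
    intro h
    rw [h, natDegree_zero] at h1X
    exact absurd h1X (by norm_num)
  have hGd : G.natDegree = 0 := by
    have h2 : D.natDegree = (2 * k + 1) + G.natDegree := by
      rw [hG, natDegree_mul (pow_ne_zero _ h1X0) hG0, natDegree_pow, h1X, mul_one]
    omega
  rw [natDegree_eq_zero] at hGd
  obtain ⟨c, hc⟩ := hGd
  refine ⟨c, ?_, ?_⟩
  · rintro rfl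
    exact hG0 (by rw [← hc, C_0])
  · rw [hG, ← hc]

theorem det_ne {K : Type*} [Field K] [CharZero K] (k : ℕ) (hk : 1 ≤ k) (x : K) (hx : x ≠ 1) :
    aeval x (PA k k) * aeval x (PC (k - 1) (k + 1)) -
      aeval x (PA (k - 1) (k + 1)) * aeval x (PC k k) ≠ 0 := by
  obtain ⟨c, hc, h⟩ := det_poly k hk
  have h1 := congrArg (aeval x) h
  simp only [map_sub, map_mul, map_pow, map_one, aeval_X, aeval_C] at h1
  rw [h1]
  refine mul_ne_zero (pow_ne_zero _ (sub_ne_zero.2 (Ne.symm hx))) ?_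
  simpa using hc

end ETT
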