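import Pool.Agent.Lib.MP_a7ed83_ag.B.B1
import Pool.Agent.Lib.MP_a7ed83_ag.B.B2

/-! B4 (90 minutes). The height of the values of the approximants.
PROOF. Let `z = ![x, y, 1]`, `V` the vector on the left. If `V = 0` its height is 0 and the
claim is clear (`nh_nonneg`). Otherwise compare the two products in `mulHeight_eq`: for every
absolute value `v` let `S = ⨆ i, v (z i) ≥ 1`. ARCHIMEDEAN: `v n ≤ n` for natural numbers, so
`v (aeval x (PA a b)) ≤ ∑_j C(a+j,j) C(2a+b+1,a-j) S^j ≤ 2^(2a) 2^(2a+b+1) S^(k+1)`, the same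
for `y`, and `v (aeval x (PC a b)) ≤ 2^(a+b) 2^(2a+b+1) S^(k+1)` (`C(a+j,j) ≤ 2^(a+j)`,
`∑ C(n,·) ≤ 2^n`: `Nat.sum_range_choose`). So `⨆ ≤ 2^(5k+1) S^(k+1)`. NONARCHIMEDEAN: integers
have absolute value ≤ 1, so `⨆ ≤ S^(k+1)` (`IsNonarchimedean.apply_sum_le` or similar in
Mathlib/NumberTheory/Height/MvPolynomial.lean). Products:
`mulHeight V ≤ (2^(5k+1))^(totalWeight K) * (mulHeight z)^(k+1)`; model: the proof of
`mulHeight_linearMap_apply_le` in the same Mathlib file (`Multiset.prod_map_le_prod_map₀`,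
`finprod_le_finprod`; the private lemma on finite multiplicative support can be reproved from
`AdmissibleAbsValues.hasFiniteMulSupport`, it is in Basic.lean lines 313-325). Take logarithms,
divide by `totalWeight K`. A possible shortcut: `mulHeight_eval_le` with homogenised
polynomials. It is best to prove first the general `nh_le_of_local`. -/

open Height Polynomial

namespace ETT

open AdmissibleAbsValues Function in
private theorem b4_fin {K : Type*} [Field K] [AdmissibleAbsValues K] {ι : Type*} [Finite ι]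
    {x : ι → K} (hx : x ≠ 0) :
    (fun v : nonarchAbsVal (K := K) => ⨆ i, v.val (x i)).HasFiniteMulSupport := by
  have h0 : Nonempty {j // x j ≠ 0} := nonempty_subtype.mpr (ne_iff.mp hx)
  have h1 : (fun v : nonarchAbsVal (K := K) => ⨆ i, v.val (x i)) =
      fun v : nonarchAbsVal (K := K) => ⨆ i : {j // x j ≠ 0}, v.val (x i) := by
    funext v
    obtain ⟨i, hi⟩ : ∃ j, x j ≠ 0 := Function.ne_iff.mp hx
    have : Nonempty ι := .intro i
    refine le_antisymm (ciSup_le fun j => ?_) (ciSup_le fun ⟨j, hj⟩ => Finite.le_ciSup_of_le j le_rfl)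
    rcases eq_or_ne (x j) 0 with h | h
    · rw [h, v.val.map_zero]
      exact Real.iSup_nonneg' ⟨⟨i, hi⟩, v.val.nonneg ..⟩
    · exact Finite.le_ciSup_of_le (⟨j, h⟩ : {j // x j ≠ 0}) le_rfl
  rw [h1]
  exact HasFiniteMulSupport.iSup fun j => hasFiniteMulSupport j.2

open AdmissibleAbsValues Multiset in
/-- Comparison of heights from local inequalities. -/
theorem nh_le_of_local {K : Type*} [Field K] [AdmissibleAbsValues K] (hK : 0 < totalWeight K)
    (z V : Fin 3 → K) (hz : z ≠ 0) (hV : V ≠ 0) (c : ℝ) (hc : 0 < c) (n : ℕ)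
    (h1 : ∀ v : AbsoluteValue K ℝ, (⨆ i, v (V i)) ≤ c * (⨆ i, v (z i)) ^ n)
    (h2 : ∀ v : AbsoluteValue K ℝ, IsNonarchimedean v → (⨆ i, v (V i)) ≤ (⨆ i, v (z i)) ^ n) :
    nh V ≤ n * nh z + Real.log c := by
  have hW : (0 : ℝ) < totalWeight K := by exact_mod_cast hK
  have hmul : mulHeight V ≤ c ^ totalWeight K * mulHeight z ^ n := by
    rw [mulHeight_eq hV, mulHeight_eq hz, mul_pow, ← mul_assoc]
    refine mul_le_mul ?_ ?_ (finprod_nonneg fun v => Real.iSup_nonneg_of_nonnegHomClass v.val _)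
      (mul_nonneg (pow_nonneg hc.le _) (pow_nonneg
        (prod_map_nonneg fun v _ => Real.iSup_nonneg_of_nonnegHomClass v _) _))
    · rw [← prod_map_pow, ← prod_replicate, totalWeight, ← map_const', ← prod_map_mul]
      exact prod_map_le_prod_map₀ _ _ (fun v _ => Real.iSup_nonneg_of_nonnegHomClass v _)
        fun v _ => h1 v
    · rw [finprod_pow (b4_fin hz)]
      exact finprod_le_finprod (b4_fin hV)
        (fun v => Real.iSup_nonneg_of_nonnegHomClass v.val _) ((b4_fin hz).pow n)
        fun v => h2 v.val (isNonarchimedean _ v.prop)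
  have hlog : logHeight V ≤ totalWeight K * Real.log c + n * logHeight z := by
    rw [logHeight_eq_log_mulHeight, logHeight_eq_log_mulHeight, ← Real.log_pow, ← Real.log_pow,
      ← Real.log_mul (pow_pos hc _).ne' (pow_pos (mulHeight_pos z) _).ne']
    exact Real.log_le_log (mulHeight_pos V) hmul
  unfold nh
  rw [div_le_iff₀ hW, add_mul, mul_assoc, div_mul_cancel₀ _ hW.ne']
  linarith

private theorem b4_nat {K : Type*} [Field K] (v : AbsoluteValue K ℝ) (n : ℕ) : v (n : K) ≤ n := by
  induction n with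
  | zero =>
    rw [Nat.cast_zero, Nat.cast_zero, map_zero]
  | succ n ih =>
    rw [Nat.cast_succ, Nat.cast_succ]
    refine (v.add_le _ _).trans ?_
    rw [map_one]
    linarith

private theorem b4_coef {K : Type*} [Field K] (v : AbsoluteValue K ℝ) (j n : ℕ) :
    v ((algebraMap ℤ K) ((-1) ^ j * (n : ℤ))) = v (n : K) := by
  rw [map_mul, map_pow, map_neg, map_one, map_natCast, map_mul, map_pow, v.map_neg, map_one, one_pow,
    one_mul]

private theorem b4_coefA (a b j : ℕ) :
    ((-1) ^ j * ((a + j).choose j : ℤ) * ((2 * a + b + 1).choose (a - j) : ℤ)) =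
      (-1) ^ j * ((((a + j).choose j * (2 * a + b + 1).choose (a - j) : ℕ)) : ℤ) := by
  push_cast
  ring

private theorem b4_coefC (a b j : ℕ) :
    ((-1) ^ j * ((a + j).choose j : ℤ) * ((2 * a + b + 1).choose (b - j) : ℤ)) =
      (-1) ^ j * ((((a + j).choose j * (2 * a + b + 1).choose (b - j) : ℕ)) : ℤ) := by
  push_cast
  ring

private theorem b4_sum (d e n : ℕ) (f : ℕ → ℕ) (hf : ∀ j ∈ Finset.range (d + 1), f j ≤ 2 ^ e) (hd : d ≤ n) :
    ∑ j ∈ Finset.range (d + 1), f j * n.choose (d - j) ≤ 2 ^ (e + n) := by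
  calc ∑ j ∈ Finset.range (d + 1), f j * n.choose (d - j)
      ≤ ∑ j ∈ Finset.range (d + 1), 2 ^ e * n.choose (d - j) :=
        Finset.sum_le_sum fun j hj => Nat.mul_le_mul_right _ (hf j hj)
    _ = 2 ^ e * ∑ j ∈ Finset.range (d + 1), n.choose (d - j) := by rw [Finset.mul_sum]
    _ = 2 ^ e * ∑ j ∈ Finset.range (d + 1), n.choose j := by
        rw [← Finset.sum_range_reflect (fun j => n.choose j) (d + 1)]
        simp only [Nat.add_sub_cancel]
    _ ≤ 2 ^ e * ∑ j ∈ Finset.range (n + 1), n.choose j :=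
        Nat.mul_le_mul_left _ (Finset.sum_le_sum_of_subset (Finset.range_mono (by omega)))
    _ = 2 ^ (e + n) := by rw [Nat.sum_range_choose, pow_add]

/-- the archimedean bound of the value of a polynomial -/
private theorem b4_arch {K : Type*} [Field K] (v : AbsoluteValue K ℝ) (x : K) (S : ℝ) (hS : 1 ≤ S)
    (hx : v x ≤ S) (d k N : ℕ) (g e : ℕ → ℕ) (he : ∀ j ∈ Finset.range (d + 1), e j ≤ k)
    (hg : ∑ j ∈ Finset.range (d + 1), g j ≤ N) :
    v (aeval x (∑ j ∈ Finset.range (d + 1), C ((-1) ^ j * (g j : ℤ)) * X ^ (e j))) ≤ N * S ^ k := by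
  rw [map_sum]
  refine (v.sum_le _ _).trans ?_
  have h1 : ∀ j ∈ Finset.range (d + 1), v (aeval x (C ((-1) ^ j * (g j : ℤ)) * X ^ (e j))) ≤ (g j : ℝ) * S ^ k := by
    intro j hj
    rw [map_mul, aeval_C, map_pow, aeval_X, map_mul, b4_coef, map_pow]
    refine mul_le_mul (b4_nat v _) ?_ (pow_nonneg (v.nonneg _) _) (Nat.cast_nonneg _)
    exact (pow_le_pow_left₀ (v.nonneg _) hx _).trans (pow_le_pow_right₀ hS (he j hj))
  refine (Finset.sum_le_sum h1).trans ?_
  rw [← Finset.sum_mul]
  refine mul_le_mul_of_nonneg_right ?_ (pow_nonneg (by linarith) _)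
  exact_mod_cast hg

/-- the nonarchimedean bound of the value of a polynomial -/
private theorem b4_non {K : Type*} [Field K] (v : AbsoluteValue K ℝ) (hv : IsNonarchimedean v) (x : K) (S : ℝ)
    (hS : 1 ≤ S) (hx : v x ≤ S) (d k : ℕ) (g e : ℕ → ℕ) (he : ∀ j ∈ Finset.range (d + 1), e j ≤ k) :
    v (aeval x (∑ j ∈ Finset.range (d + 1), C ((-1) ^ j * (g j : ℤ)) * X ^ (e j))) ≤ S ^ k := by
  rw [map_sum]
  have h1 : ∀ j ∈ Finset.range (d + 1), v (aeval x (C ((-1) ^ j * (g j : ℤ)) * X ^ (e j))) ≤ S ^ k := by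
    intro j hj
    rw [map_mul, aeval_C, map_pow, aeval_X, map_mul, b4_coef, map_pow]
    have h2 : v ((g j : ℕ) : K) ≤ 1 := hv.apply_natCast_le_one
    have h3 : v x ^ e j ≤ S ^ k :=
      (pow_le_pow_left₀ (v.nonneg _) hx _).trans (pow_le_pow_right₀ hS (he j hj))
    calc v ((g j : ℕ) : K) * v x ^ e j ≤ 1 * S ^ k :=
          mul_le_mul h2 h3 (pow_nonneg (v.nonneg _) _) zero_le_one
      _ = S ^ k := one_mul _
  obtain ⟨j, hj, hj2⟩ := hv.finset_image_add_of_nonempty
    (fun j => aeval x (C ((-1) ^ j * (g j : ℤ)) * X ^ (e j))) (Finset.nonempty_range_add_one (n := d))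
  exact hj2.trans (h1 j hj)

theorem nh_values {K : Type*} [Field K] [AdmissibleAbsValues K] (hK : 0 < totalWeight K)
    (x y s : K) (hs : s = 1 ∨ s = -1) (a b k : ℕ) (ha : a ≤ k + 1) (hb : b ≤ k + 1)
    (hab1 : 2 * a + (2 * a + b + 1) ≤ 5 * k + 1) (hab2 : a + b + (2 * a + b + 1) ≤ 5 * k + 1) :
    nh ![aeval x (PA a b), s * aeval y (PA a b), -aeval x (PC a b)] ≤
      (k + 1) * nh ![x, y, 1] + (5 * k + 1) * Real.log 2 := by
  rcases eq_or_ne (![aeval x (PA a b), s * aeval y (PA a b), -aeval x (PC a b)]) 0 with h0 | h0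
  · rw [h0]
    have h1 : nh (0 : Fin 3 → K) = 0 := by
      unfold nh
      rw [logHeight_zero, zero_div]
    rw [h1]
    have h2 := nh_nonneg ![x, y, 1]
    have h3 : 0 ≤ Real.log 2 := Real.log_nonneg (by norm_num)
    positivity
  · have hz : ![x, y, 1] ≠ 0 := by
      intro h
      exact one_ne_zero (congrFun h 2)
    have hPA : PA a b = ∑ j ∈ Finset.range (a + 1),
        C ((-1) ^ j * ((((a + j).choose j * (2 * a + b + 1).choose (a - j) : ℕ)) : ℤ)) * X ^ j := by
      rw [PA]
      exact Finset.sum_congr rfl fun j _ => by rw [b4_coefA]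
    have hPC : PC a b = ∑ j ∈ Finset.range (b + 1),
        C ((-1) ^ j * ((((a + j).choose j * (2 * a + b + 1).choose (b - j) : ℕ)) : ℤ)) * X ^ (b - j) := by
      rw [PC]
      exact Finset.sum_congr rfl fun j _ => by rw [b4_coefC]
    have hsA : ∑ j ∈ Finset.range (a + 1), (a + j).choose j * (2 * a + b + 1).choose (a - j) ≤ 2 ^ (5 * k + 1) := by
      refine (b4_sum a (2 * a) (2 * a + b + 1) (fun j => (a + j).choose j) ?_ (by omega)).trans ?_
      · intro j hj
        rw [Finset.mem_range] at hj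
        exact (Nat.choose_le_two_pow _ _).trans (Nat.pow_le_pow_right (by norm_num) (by omega))
      · exact Nat.pow_le_pow_right (by norm_num) hab1
    have hsC : ∑ j ∈ Finset.range (b + 1), (a + j).choose j * (2 * a + b + 1).choose (b - j) ≤ 2 ^ (5 * k + 1) := by
      refine (b4_sum b (a + b) (2 * a + b + 1) (fun j => (a + j).choose j) ?_ (by omega)).trans ?_
      · intro j hj
        rw [Finset.mem_range] at hj
        exact (Nat.choose_le_two_pow _ _).trans (Nat.pow_le_pow_right (by norm_num) (by omega))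
      · exact Nat.pow_le_pow_right (by norm_num) hab2
    have hloc : ∀ v : AbsoluteValue K ℝ, 1 ≤ (⨆ i, v (![x, y, 1] i)) ∧
        v x ≤ (⨆ i, v (![x, y, 1] i)) ∧ v y ≤ (⨆ i, v (![x, y, 1] i)) := by
      intro v
      refine ⟨?_, ?_, ?_⟩
      · refine Finite.le_ciSup_of_le (2 : Fin 3) (le_of_eq ?_)
        exact (map_one v).symm
      · exact Finite.le_ciSup_of_le (0 : Fin 3) le_rfl
      · exact Finite.le_ciSup_of_le (1 : Fin 3) le_rfl
    have hvs : ∀ v : AbsoluteValue K ℝ, v s = 1 := by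
      intro v
      rcases hs with rfl | rfl
      · exact map_one v
      · rw [v.map_neg, map_one]
    have hmain := nh_le_of_local hK ![x, y, 1]
      ![aeval x (PA a b), s * aeval y (PA a b), -aeval x (PC a b)] hz h0 (2 ^ (5 * k + 1)) (by positivity)
      (k + 1) ?_ ?_
    · rw [Real.log_pow] at hmain
      push_cast at hmain
      exact hmain
    · intro v
      obtain ⟨g1, g2, g3⟩ := hloc v
      have e1 := b4_arch v x _ g1 g2 a (k + 1) _ _ (fun j => j)
        (fun j hj => by rw [Finset.mem_range] at hj; omega) hsA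
      have e2 := b4_arch v y _ g1 g3 a (k + 1) _ _ (fun j => j)
        (fun j hj => by rw [Finset.mem_range] at hj; omega) hsA
      have e3 := b4_arch v x _ g1 g2 b (k + 1) _ _ (fun j => b - j)
        (fun j hj => by rw [Finset.mem_range] at hj; omega) hsC
      rw [← hPA] at e1 e2
      rw [← hPC] at e3
      push_cast at e1 e2 e3
      refine ciSup_le fun i => ?_
      fin_cases i
      · exact e1
      · show v (s * aeval y (PA a b)) ≤ _
        rw [map_mul, hvs, one_mul]
        exact e2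
      · show v (-aeval x (PC a b)) ≤ _
        rw [v.map_neg]
        exact e3
    · intro v hv
      obtain ⟨g1, g2, g3⟩ := hloc v
      have e1 := b4_non v hv x _ g1 g2 a (k + 1) (fun j => (a + j).choose j * (2 * a + b + 1).choose (a - j))
        (fun j => j) (fun j hj => by rw [Finset.mem_range] at hj; omega)
      have e2 := b4_non v hv y _ g1 g3 a (k + 1) (fun j => (a + j).choose j * (2 * a + b + 1).choose (a - j))
        (fun j => j) (fun j hj => by rw [Finset.mem_range] at hj; omega)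
      have e3 := b4_non v hv x _ g1 g2 b (k + 1) (fun j => (a + j).choose j * (2 * a + b + 1).choose (b - j))
        (fun j => b - j) (fun j hj => by rw [Finset.mem_range] at hj; omega)
      rw [← hPA] at e1 e2
      rw [← hPC] at e3
      refine ciSup_le fun i => ?_
      fin_cases i
      · exact e1
      · show v (s * aeval y (PA a b)) ≤ _
        rw [map_mul, hvs, one_mul]
        exact e2
      · show v (-aeval x (PC a b)) ≤ _
        rw [v.map_neg]
        exact e3

end ETT
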