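import Pool.Agent.Lib.MP_a7ed83_ag.B.B3
import Pool.Agent.Lib.MP_a7ed83_ag.B.B4

/-! B5 (50 minutes). The hypergeometric gap principle.
PROOF. Let `N = 2k+1`, `z = ![x^N, y^N, 1] = ![x, y, 1]^N`, so `nh z = N * nh ![x,y,1]`
(`nh_pow`); `w = ![ξ, η, -1]` is orthogonal to `z`, `nh w = nh ![ξ, η, 1]` (`nh_neg`). For
`(a,b) = (k,k)` and `(k-1,k+1)` let `V = ![A(x), s A(y), -C(x)]`, `s = (-1)^b`; it is orthogonal to
`z` by `pade` evaluated at `x` (`1 - x = y`). For at least one of the two, `V` and `w` are not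
proportional: otherwise `V 0 * w 2 = V 2 * w 0` reads `A(x) = C(x) ξ` for both, and then
`A₁ C₂ - A₂ C₁ = C₁ ξ C₂ - C₂ ξ C₁ = 0`, contradiction to `det_ne` (`x ≠ 1` as `y ≠ 0`). Now
`nh_cross` and `nh_values` give `N nh ≤ log 9 + (k+1) nh + (5k+1) log 2 + nh ![ξ,η,1]`. -/

open Height Polynomial

namespace ETT

private theorem B5_one {K : Type*} [Field K] [AdmissibleAbsValues K] [CharZero K]
    (hK : 0 < totalWeight K) (x y ξ η : K) (hx : x ≠ 0) (hxy : x + y = 1)
    (k : ℕ) (h : x ^ (2 * k + 1) * ξ + y ^ (2 * k + 1) * η = 1)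
    (a b : ℕ) (ha : a ≤ k + 1) (hb : b ≤ k + 1) (hab : a + b = 2 * k)
    (hab1 : 2 * a + (2 * a + b + 1) ≤ 5 * k + 1) (hab2 : a + b + (2 * a + b + 1) ≤ 5 * k + 1)
    (hne : aeval x (PA a b) ≠ aeval x (PC a b) * ξ) :
    (k : ℝ) * nh ![x, y, 1] ≤ Real.log 9 + (5 * k + 1) * Real.log 2 + nh ![ξ, η, 1] := by
  have hy : 1 - x = y := by rw [← hxy]; ring
  have hN : a + b + 1 = 2 * k + 1 := by omega
  have hs : ((-1 : K)) ^ b = 1 ∨ ((-1 : K)) ^ b = -1 := neg_one_pow_eq_or K b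
  have hpade : x ^ (2 * k + 1) * aeval x (PA a b) +
      (-1) ^ b * y ^ (2 * k + 1) * aeval y (PA a b) = aeval x (PC a b) := by
    have h1 := congrArg (fun q : ℤ[X] => aeval x q) (pade a b)
    simp only [map_add, map_mul, map_pow, aeval_X, map_sub, map_one, aeval_comp, hN] at h1
    rw [hy] at h1
    rw [← h1]
    congr 3
    simp
  have hz : (![x, y, 1] : Fin 3 → K) ^ (2 * k + 1) ≠ 0 := by
    intro h0
    have h1 := congrFun h0 0
    rw [Pi.pow_apply, Pi.zero_apply] at h1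
    exact pow_ne_zero _ hx h1
  have h1 : ∑ i, (![aeval x (PA a b), (-1) ^ b * aeval y (PA a b), -aeval x (PC a b)] : Fin 3 → K) i *
      ((![x, y, 1] : Fin 3 → K) ^ (2 * k + 1)) i = 0 := by
    rw [Fin.sum_univ_three]
    simp only [Pi.pow_apply, Matrix.cons_val_zero, Matrix.cons_val_one, Matrix.cons_val]
    rw [← hpade, one_pow]
    ring
  have h2 : ∑ i, (![ξ, η, -1] : Fin 3 → K) i * ((![x, y, 1] : Fin 3 → K) ^ (2 * k + 1)) i = 0 := by
    rw [Fin.sum_univ_three]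
    simp only [Pi.pow_apply, Matrix.cons_val_zero, Matrix.cons_val_one, Matrix.cons_val]
    rw [one_pow]
    linear_combination h
  have h3 : ∃ i j, (![aeval x (PA a b), (-1) ^ b * aeval y (PA a b), -aeval x (PC a b)] : Fin 3 → K) i *
      (![ξ, η, -1] : Fin 3 → K) j ≠
      (![aeval x (PA a b), (-1) ^ b * aeval y (PA a b), -aeval x (PC a b)] : Fin 3 → K) j *
      (![ξ, η, -1] : Fin 3 → K) i := by
    refine ⟨0, 2, ?_⟩
    simp only [Matrix.cons_val_zero, Matrix.cons_val]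
    intro h4
    apply hne
    linear_combination -h4
  have h4 := nh_cross hK _ _ _ hz h1 h2 h3
  have h5 := nh_values hK x y ((-1) ^ b) hs a b k ha hb hab1 hab2
  rw [nh_pow, nh_neg] at h4
  push_cast at h4
  linarith

theorem key_gap {K : Type*} [Field K] [AdmissibleAbsValues K] [CharZero K]
    (hK : 0 < totalWeight K) (x y ξ η : K) (hx : x ≠ 0) (hy : y ≠ 0) (hxy : x + y = 1)
    (k : ℕ) (hk : 1 ≤ k) (h : x ^ (2 * k + 1) * ξ + y ^ (2 * k + 1) * η = 1) :
    (k : ℝ) * nh ![x, y, 1] ≤ Real.log 9 + (5 * k + 1) * Real.log 2 + nh ![ξ, η, 1] := by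
  have hx1 : x ≠ 1 := by
    intro h1
    apply hy
    rw [h1] at hxy
    linear_combination hxy
  have hdet := det_ne k hk x hx1
  by_cases h1 : aeval x (PA k k) = aeval x (PC k k) * ξ
  · refine B5_one hK x y ξ η hx hxy k h (k - 1) (k + 1) (by omega) le_rfl (by omega) (by omega) (by omega) ?_
    intro h2
    apply hdet
    rw [h1, h2]
    ring
  · exact B5_one hK x y ξ η hx hxy k h k k (by omega) (by omega) (by omega) (by omega) (by omega) h1

end ETT
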