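import Mathlib

/-! B6 (60 minutes). Packing: points of `E` with `R ≤ h ≤ C R` (`R ≥ 20`).
PROOF. Notation `‖(i,j)‖ = max (|i| P) (|j| S)`, so `‖v‖ ≤ N v ≤ 2 ‖v‖`. For `p` in the set:
`‖p - p₀‖ ≤ N (p - p₀) ≤ h p + 2 h p₀ ≤ 3 h p ≤ 3 C R`. For `p ≠ p'` in the set:
`2 ‖p' - p‖ ≥ N (p' - p) ≥ h p - log 9 ≥ R - log 9 ≥ 2 R / 3` (as `R ≥ 20`, `log 9 < 2.2`), so
`‖p' - p‖ ≥ R/3`. The map `p ↦ (⌊3 i P / R⌋, ⌊3 j S / R⌋)`, `(i,j) = p - p₀`, has values in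
`[-9C, 9C]²` and is injective on the set (equal floors give `‖p' - p‖ < R/3`). So the card is at
most `(18 C + 1)²` (`Finset.card_le_card_of_injOn` into `Finset.Icc (-9C) (9C) ×ˢ ...`,
`Int.card_Icc`). -/

namespace ETT

/-- The hypotheses of the packing argument. -/
structure PK (P S : ℝ) (N : ℤ → ℤ → ℝ) (E : Finset (ℤ × ℤ)) (h : ℤ × ℤ → ℝ) : Prop where
  hP : 0 < P
  hS : 0 < S
  lowP : ∀ i j : ℤ, |(i : ℝ)| * P ≤ N i j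
  lowS : ∀ i j : ℤ, |(j : ℝ)| * S ≤ N i j
  upp : ∀ i j : ℤ, N i j ≤ |(i : ℝ)| * P + |(j : ℝ)| * S
  nonneg : ∀ p, 0 ≤ h p
  H1 : ∀ p ∈ E, ∀ p' ∈ E, p ≠ p' → h p ≤ Real.log 9 + N (p'.1 - p.1) (p'.2 - p.2)
  H2 : ∀ p ∈ E, ∀ p' ∈ E, N (p'.1 - p.1) (p'.2 - p.2) ≤ h p' + 2 * h p
  H2' : ∀ p ∈ E, ∀ p' ∈ E, h p' ≤ h p + N (p'.1 - p.1) (p'.2 - p.2)
  H3 : ∀ p₀ ∈ E, ∀ p ∈ E, ∀ p' ∈ E, ∀ k : ℕ, 1 ≤ k →
    (k : ℝ) * h p ≤ Real.log 9 + (5 * k + 1) * Real.log 2 + 4 * k * h p₀ +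
      N ((p'.1 - p₀.1) - (2 * k + 1) * (p.1 - p₀.1)) ((p'.2 - p₀.2) - (2 * k + 1) * (p.2 - p₀.2))

theorem ring_card {P S : ℝ} {N : ℤ → ℤ → ℝ} {E : Finset (ℤ × ℤ)} {h : ℤ × ℤ → ℝ}
    (H : PK P S N E h) (p₀ : ℤ × ℤ) (hp₀ : p₀ ∈ E) (hmin : ∀ p ∈ E, h p₀ ≤ h p) (R : ℝ)
    (hR : 20 ≤ R) (c : ℕ) (F : Finset (ℤ × ℤ)) (hF : F ⊆ E) (h1 : ∀ p ∈ F, R ≤ h p)
    (h2 : ∀ p ∈ F, h p ≤ c * R) : F.card ≤ (18 * c + 1) ^ 2 := by
  have hR0 : 0 < R := by linarith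
  have hlog : Real.log 9 < 3 := by
    have h16 : Real.log 9 ≤ Real.log (2 ^ 4) := Real.log_le_log (by norm_num) (by norm_num)
    rw [Real.log_pow] at h16
    have := Real.log_two_lt_d9
    push_cast at h16
    linarith
  have hbd : ∀ p ∈ F, N (p.1 - p₀.1) (p.2 - p₀.2) ≤ 3 * (c * R) := by
    intro p hp
    have a1 := H.H2 p₀ hp₀ p (hF hp)
    have a2 := hmin p (hF hp)
    have a3 := h2 p hp
    linarith
  let σ : ℤ × ℤ → ℤ × ℤ := fun p =>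
    (⌊3 * ((((p.1 - p₀.1 : ℤ) : ℝ)) * P) / R⌋, ⌊3 * ((((p.2 - p₀.2 : ℤ) : ℝ)) * S) / R⌋)
  have hfl : ∀ x : ℝ, |x| ≤ 3 * (c * R) → ⌊3 * x / R⌋ ∈ Finset.Icc (-(9 * c : ℤ)) (9 * c) := by
    intro x hx
    rw [abs_le] at hx
    rw [Finset.mem_Icc]
    constructor
    · rw [Int.le_floor, le_div_iff₀ hR0]
      push_cast
      linarith [hx.1]
    · have h9 : 3 * x / R ≤ ((9 * c : ℤ) : ℝ) := by
        rw [div_le_iff₀ hR0]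
        push_cast
        linarith [hx.2]
      have := Int.floor_le (3 * x / R)
      exact_mod_cast this.trans h9
  have habs : ∀ (i : ℤ) (T : ℝ), 0 < T → |((i : ℝ)) * T| = |(i : ℝ)| * T := by
    intro i T hT
    rw [abs_mul, abs_of_pos hT]
  have hmap : ∀ p ∈ F, σ p ∈ Finset.Icc (-(9 * c : ℤ)) (9 * c) ×ˢ Finset.Icc (-(9 * c : ℤ)) (9 * c) := by
    intro p hp
    rw [Finset.mem_product]
    refine ⟨hfl _ ?_, hfl _ ?_⟩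
    · rw [habs _ _ H.hP]
      exact (H.lowP _ _).trans (hbd p hp)
    · rw [habs _ _ H.hS]
      exact (H.lowS _ _).trans (hbd p hp)
  have hinj : Set.InjOn σ (F : Set (ℤ × ℤ)) := by
    intro p hp p' hp' hpp
    by_contra hne
    have hp1 : p ∈ F := hp
    have hp1' : p' ∈ F := hp'
    have e1 : ⌊3 * ((((p.1 - p₀.1 : ℤ) : ℝ)) * P) / R⌋ = ⌊3 * ((((p'.1 - p₀.1 : ℤ) : ℝ)) * P) / R⌋ :=
      congrArg Prod.fst hpp
    have e2 : ⌊3 * ((((p.2 - p₀.2 : ℤ) : ℝ)) * S) / R⌋ = ⌊3 * ((((p'.2 - p₀.2 : ℤ) : ℝ)) * S) / R⌋ :=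
      congrArg Prod.snd hpp
    have a1 := Int.abs_sub_lt_one_of_floor_eq_floor e1
    have a2 := Int.abs_sub_lt_one_of_floor_eq_floor e2
    have b1 : |((p'.1 - p.1 : ℤ) : ℝ)| * P < R / 3 := by
      rw [← habs _ _ H.hP]
      have : 3 * ((((p.1 - p₀.1 : ℤ) : ℝ)) * P) / R - 3 * ((((p'.1 - p₀.1 : ℤ) : ℝ)) * P) / R =
          -(((p'.1 - p.1 : ℤ) : ℝ) * P) / (R / 3) := by
        field_simp
        push_cast
        ring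
      rw [this, abs_div, abs_neg, abs_of_pos (show 0 < R / 3 by positivity), div_lt_one (by positivity)] at a1
      exact a1
    have b2 : |((p'.2 - p.2 : ℤ) : ℝ)| * S < R / 3 := by
      rw [← habs _ _ H.hS]
      have : 3 * ((((p.2 - p₀.2 : ℤ) : ℝ)) * S) / R - 3 * ((((p'.2 - p₀.2 : ℤ) : ℝ)) * S) / R =
          -(((p'.2 - p.2 : ℤ) : ℝ) * S) / (R / 3) := by
        field_simp
        push_cast
        ring
      rw [this, abs_div, abs_neg, abs_of_pos (show 0 < R / 3 by positivity), div_lt_one (by positivity)] at a2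
      exact a2
    have c1 := H.H1 p (hF hp1) p' (hF hp1') hne
    have c2 := H.upp (p'.1 - p.1) (p'.2 - p.2)
    have c3 := h1 p hp1
    linarith
  have hcard := Finset.card_le_card_of_injOn σ hmap hinj
  have hc2 : (Finset.Icc (-(9 * c : ℤ)) (9 * c) ×ˢ Finset.Icc (-(9 * c : ℤ)) (9 * c)).card = (18 * c + 1) ^ 2 := by
    rw [Finset.card_product, Int.card_Icc]
    have : ((9 * c : ℤ) + 1 - -(9 * c : ℤ)).toNat = 18 * c + 1 := by omega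
    rw [this]
    ring
  rw [← hc2]
  exact hcard

theorem small_card {P S : ℝ} {N : ℤ → ℤ → ℝ} {E : Finset (ℤ × ℤ)} {h : ℤ × ℤ → ℝ}
    (H : PK P S N E h) (p₀ : ℤ × ℤ) (hp₀ : p₀ ∈ E) (hmin : ∀ p ∈ E, h p₀ ≤ h p) (κ : ℝ)
    (hκ : 0 < κ) (hP : κ ≤ P) (hS : κ ≤ S) (F : Finset (ℤ × ℤ)) (hF : F ⊆ E)
    (h1 : ∀ p ∈ F, h p ≤ 20) : F.card ≤ (2 * ⌈60 / κ⌉₊ + 1) ^ 2 := by
  have hbd : ∀ p ∈ F, N (p.1 - p₀.1) (p.2 - p₀.2) ≤ 60 := by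
    intro p hp
    have a1 := H.H2 p₀ hp₀ p (hF hp)
    have a2 := hmin p (hF hp)
    have a3 := h1 p hp
    linarith
  set K : ℕ := ⌈60 / κ⌉₊ with hK
  have hfl : ∀ (i : ℤ) (T : ℝ), κ ≤ T → |(i : ℝ)| * T ≤ 60 → i ∈ Finset.Icc (-(K : ℤ)) K := by
    intro i T hT hi
    have h3 : |(i : ℝ)| * κ ≤ 60 := (mul_le_mul_of_nonneg_left hT (abs_nonneg _)).trans hi
    have h4 : |(i : ℝ)| ≤ 60 / κ := by rwa [le_div_iff₀ hκ]
    have h5 : |(i : ℝ)| ≤ (K : ℝ) := h4.trans (Nat.le_ceil _)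
    have h6 : |i| ≤ (K : ℤ) := by
      have : ((|i| : ℤ) : ℝ) ≤ ((K : ℤ) : ℝ) := by push_cast; exact h5
      exact_mod_cast this
    rw [Finset.mem_Icc]
    exact abs_le.mp h6
  let σ : ℤ × ℤ → ℤ × ℤ := fun p => (p.1 - p₀.1, p.2 - p₀.2)
  have hmap : ∀ p ∈ F, σ p ∈ Finset.Icc (-(K : ℤ)) K ×ˢ Finset.Icc (-(K : ℤ)) K := by
    intro p hp
    rw [Finset.mem_product]
    exact ⟨hfl _ P hP ((H.lowP _ _).trans (hbd p hp)), hfl _ S hS ((H.lowS _ _).trans (hbd p hp))⟩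
  have hinj : Set.InjOn σ (F : Set (ℤ × ℤ)) := by
    intro p hp p' hp' hpp
    have e1 : p.1 - p₀.1 = p'.1 - p₀.1 := congrArg Prod.fst hpp
    have e2 : p.2 - p₀.2 = p'.2 - p₀.2 := congrArg Prod.snd hpp
    exact Prod.ext (by omega) (by omega)
  have hcard := Finset.card_le_card_of_injOn σ hmap hinj
  have hc2 : (Finset.Icc (-(K : ℤ)) K ×ˢ Finset.Icc (-(K : ℤ)) K).card = (2 * K + 1) ^ 2 := by
    rw [Finset.card_product, Int.card_Icc]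
    have : ((K : ℤ) + 1 - -(K : ℤ)).toNat = 2 * K + 1 := by omega
    rw [this]
    ring
  rw [← hc2]
  exact hcard

end ETT
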