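import Pool.Agent.Lib.MP_a7ed83_ag.B.B6

/-! B6b (80 minutes). Two points in the same sector with very different heights cannot exist.
PROOF. `‖(i,j)‖ = max (|i| P) (|j| S)`, `‖v‖ ≤ N v ≤ 2 ‖v‖`, `v = p - p₀`, `v' = p' - p₀`. Since
`h p > 16 h p₀ ≥ 0`, `p ≠ p₀`, `‖v‖ > 0`. `‖v‖ ≤ N v ≤ h p + 2 h p₀ ≤ (9/8) h p` (H2),
`‖v'‖ ≥ N v' / 2 ≥ (h p' - h p₀)/2 ≥ (15/32) h p' > 28 h p` (H2'), so `ρ := ‖v'‖/‖v‖ > 24`. Let
`k := ⌊ρ/2⌋₊ ≥ 12`, so `2k ≤ ρ < 2k+2` and `|ρ - (2k+1)| ≤ 1`. Let `e = v' - (2k+1) v`.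
Coordinatewise, e.g. `|i' P - ρ i P| ≤ ‖v'‖/32` (from the hypothesis `hs1`: multiply by `‖v'‖/32`),
`|ρ - (2k+1)| |i P| ≤ ‖v‖`. So `‖e‖ ≤ ‖v‖ (ρ/32 + 1)`, `N e ≤ 2‖e‖ ≤ (9/4)(ρ/32 + 1) h p
≤ ((9k + 153)/64) h p`. H3: `k h ≤ log 9 + (5k+1) log 2 + 4k h p₀ + N e
≤ 2.2 + 0.7 (5k+1) + (k/4) h + ((9k+153)/64) h`, hence
`h (39 k - 153)/64 ≤ 2.9 + 3.5 k`, and for `k ≥ 12`, `39k - 153 ≥ 26 k`, so
`h ≤ (3.8 k) * 64/(26 k) < 10 < 20`: contradiction. (`Real.log_two_lt_d9`; `log 9 < 2.2`: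
`9 = 3^2`, `Real.log 3 < 1.0987` or `Real.log 9 ≤ ...` by `Real.log_le_sub_one_of_pos` on
`9/8`: `log 9 = 3 log 2 + log (9/8) ≤ 2.0795 + 0.125 = 2.2045`: use 2.21 instead of 2.2 if
needed; there is room everywhere.) -/

namespace ETT

private theorem B6b_log9 : Real.log 9 ≤ 2.21 := by
  have h1 : Real.log 9 = 3 * Real.log 2 + Real.log (9 / 8) := by
    have h2 : (9 : ℝ) = 2 ^ 3 * (9 / 8) := by norm_num
    rw [h2, Real.log_mul (by norm_num) (by norm_num), Real.log_pow]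
    norm_num
  have h3 : Real.log (9 / 8) ≤ 9 / 8 - 1 := Real.log_le_sub_one_of_pos (by norm_num)
  have h4 := Real.log_two_lt_d9
  rw [h1]
  linarith

private theorem B6b_coord {a a' n n' ρ k : ℝ} (hn : 0 < n) (hn' : 0 < n') (hρ : ρ = n' / n)
    (hk : |ρ - (2 * k + 1)| ≤ 1) (ha : |a| ≤ n) (hs : |32 * (a' / n') - 32 * (a / n)| ≤ 1) :
    |a' - (2 * k + 1) * a| ≤ n * (ρ / 32 + 1) := by
  have h1 : a' - ρ * a = (n' / 32) * (32 * (a' / n') - 32 * (a / n)) := by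
    rw [hρ]
    field_simp
  have h2 : |a' - ρ * a| ≤ n' / 32 := by
    rw [h1, abs_mul, abs_of_pos (by positivity : (0 : ℝ) < n' / 32)]
    have := mul_le_mul_of_nonneg_left hs (by positivity : (0 : ℝ) ≤ n' / 32)
    linarith
  have h3 : |(ρ - (2 * k + 1)) * a| ≤ n := by
    rw [abs_mul]
    calc |ρ - (2 * k + 1)| * |a| ≤ 1 * n := mul_le_mul hk ha (abs_nonneg _) (by norm_num)
      _ = n := one_mul n
  have h4 : a' - (2 * k + 1) * a = (a' - ρ * a) + (ρ - (2 * k + 1)) * a := by ring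
  rw [h4]
  have h5 := abs_add_le (a' - ρ * a) ((ρ - (2 * k + 1)) * a)
  have h6 : n * (ρ / 32 + 1) = n' / 32 + n := by
    rw [hρ]
    field_simp
  rw [h6]
  linarith

theorem sector {P S : ℝ} {N : ℤ → ℤ → ℝ} {E : Finset (ℤ × ℤ)} {h : ℤ × ℤ → ℝ}
    (H : PK P S N E h) (p₀ : ℤ × ℤ) (hp₀ : p₀ ∈ E) (p p' : ℤ × ℤ) (hp : p ∈ E)
    (hp' : p' ∈ E) (h0 : 16 * h p₀ < h p) (h20 : 20 ≤ h p) (h60 : 60 * h p < h p')
    (n n' : ℝ) (hn : n = max (|((p.1 - p₀.1 : ℤ) : ℝ)| * P) (|((p.2 - p₀.2 : ℤ) : ℝ)| * S))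
    (hn' : n' = max (|((p'.1 - p₀.1 : ℤ) : ℝ)| * P) (|((p'.2 - p₀.2 : ℤ) : ℝ)| * S))
    (hs1 : |32 * (((p'.1 - p₀.1 : ℤ) : ℝ) * P / n') - 32 * (((p.1 - p₀.1 : ℤ) : ℝ) * P / n)| ≤ 1)
    (hs2 : |32 * (((p'.2 - p₀.2 : ℤ) : ℝ) * S / n') - 32 * (((p.2 - p₀.2 : ℤ) : ℝ) * S / n)| ≤ 1) :
    False := by
  obtain ⟨hP, hS, lowP, lowS, upp, nonneg, -, H2, H2', H3⟩ := H
  have g0 := nonneg p₀
  have e1 := H2 p₀ hp₀ p hp
  have e2 := H2' p₀ hp₀ p hp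
  have e3 := H2' p₀ hp₀ p' hp'
  have hnN : n ≤ N (p.1 - p₀.1) (p.2 - p₀.2) := by
    rw [hn]
    exact max_le (lowP _ _) (lowS _ _)
  have hNn : N (p.1 - p₀.1) (p.2 - p₀.2) ≤ 2 * n := by
    have h1 := upp (p.1 - p₀.1) (p.2 - p₀.2)
    have h2 := le_max_left (|((p.1 - p₀.1 : ℤ) : ℝ)| * P) (|((p.2 - p₀.2 : ℤ) : ℝ)| * S)
    have h3 := le_max_right (|((p.1 - p₀.1 : ℤ) : ℝ)| * P) (|((p.2 - p₀.2 : ℤ) : ℝ)| * S)
    rw [← hn] at h2 h3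
    linarith
  have hNn' : N (p'.1 - p₀.1) (p'.2 - p₀.2) ≤ 2 * n' := by
    have h1 := upp (p'.1 - p₀.1) (p'.2 - p₀.2)
    have h2 := le_max_left (|((p'.1 - p₀.1 : ℤ) : ℝ)| * P) (|((p'.2 - p₀.2 : ℤ) : ℝ)| * S)
    have h3 := le_max_right (|((p'.1 - p₀.1 : ℤ) : ℝ)| * P) (|((p'.2 - p₀.2 : ℤ) : ℝ)| * S)
    rw [← hn'] at h2 h3
    linarith
  have hnle : n ≤ 9 / 8 * h p := by linarith
  have hnpos : 0 < n := by linarith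
  have hn'ge : 29.9 * h p ≤ n' := by
    have : 0 < h p := by linarith
    norm_num
    linarith
  have hn'pos : 0 < n' := by
    have : 0 < h p := by linarith
    norm_num at hn'ge
    linarith
  obtain ⟨ρ, hρ⟩ : ∃ ρ, ρ = n' / n := ⟨_, rfl⟩
  have hρ24 : 24 < ρ := by
    rw [hρ, lt_div_iff₀ hnpos]
    norm_num at hn'ge
    linarith
  obtain ⟨k, hk⟩ : ∃ k, k = ⌊ρ / 2⌋₊ := ⟨_, rfl⟩
  have hk1 : (k : ℝ) ≤ ρ / 2 := by
    rw [hk]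
    exact Nat.floor_le (by linarith)
  have hk2 : ρ / 2 < (k : ℝ) + 1 := by
    rw [hk]
    exact Nat.lt_floor_add_one _
  have hk12 : 12 ≤ k := by
    rw [hk]
    apply Nat.le_floor
    push_cast
    linarith
  have hk12r : (12 : ℝ) ≤ k := by exact_mod_cast hk12
  have hkρ : |ρ - (2 * (k : ℝ) + 1)| ≤ 1 := by
    rw [abs_le]
    constructor <;> linarith
  have e4 := H3 p₀ hp₀ p hp p' hp' k (by omega)
  have ha : |((p.1 - p₀.1 : ℤ) : ℝ) * P| ≤ n := by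
    rw [abs_mul, abs_of_pos hP, hn]
    exact le_max_left _ _
  have hb : |((p.2 - p₀.2 : ℤ) : ℝ) * S| ≤ n := by
    rw [abs_mul, abs_of_pos hS, hn]
    exact le_max_right _ _
  have c1 := B6b_coord hnpos hn'pos hρ hkρ ha hs1
  have c2 := B6b_coord hnpos hn'pos hρ hkρ hb hs2
  have e5 := upp ((p'.1 - p₀.1) - (2 * k + 1) * (p.1 - p₀.1)) ((p'.2 - p₀.2) - (2 * k + 1) * (p.2 - p₀.2))
  have d1 : |(((p'.1 - p₀.1) - (2 * (k : ℤ) + 1) * (p.1 - p₀.1) : ℤ) : ℝ)| * P =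
      |((p'.1 - p₀.1 : ℤ) : ℝ) * P - (2 * (k : ℝ) + 1) * (((p.1 - p₀.1 : ℤ) : ℝ) * P)| := by
    rw [← abs_of_pos hP, ← abs_mul, abs_of_pos hP]
    congr 1
    push_cast
    ring
  have d2 : |(((p'.2 - p₀.2) - (2 * (k : ℤ) + 1) * (p.2 - p₀.2) : ℤ) : ℝ)| * S =
      |((p'.2 - p₀.2 : ℤ) : ℝ) * S - (2 * (k : ℝ) + 1) * (((p.2 - p₀.2 : ℤ) : ℝ) * S)| := by
    rw [← abs_of_pos hS, ← abs_mul, abs_of_pos hS]
    congr 1
    push_cast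
    ring
  rw [d1, d2] at e5
  have f1 : n * (ρ / 32 + 1) ≤ 9 / 8 * h p * (((k : ℝ) + 17) / 16) := by
    apply mul_le_mul hnle _ (by linarith) (by linarith)
    linarith
  have f2 : N ((p'.1 - p₀.1) - (2 * k + 1) * (p.1 - p₀.1)) ((p'.2 - p₀.2) - (2 * k + 1) * (p.2 - p₀.2)) ≤
      (9 * (k : ℝ) + 153) / 64 * h p := by
    have : (9 * (k : ℝ) + 153) / 64 * h p = 2 * (9 / 8 * h p * (((k : ℝ) + 17) / 16)) := by ring
    linarith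
  have f3 := B6b_log9
  have f4 := Real.log_two_lt_d9
  have f5 : (5 * (k : ℝ) + 1) * Real.log 2 ≤ (5 * (k : ℝ) + 1) * 0.7 := by
    apply mul_le_mul_of_nonneg_left _ (by linarith)
    linarith
  have f6 : 4 * (k : ℝ) * h p₀ ≤ (k : ℝ) / 4 * h p := by
    have : (k : ℝ) / 4 * h p = 4 * (k : ℝ) * (h p / 16) := by ring
    rw [this]
    apply mul_le_mul_of_nonneg_left _ (by linarith)
    linarith
  have f7 : (k : ℝ) * h p - (k : ℝ) / 4 * h p - (9 * (k : ℝ) + 153) / 64 * h p ≤ 2.21 + (5 * (k : ℝ) + 1) * 0.7 := by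
    linarith
  have f8 : (26 * (k : ℝ) / 64) * 20 ≤ (k : ℝ) * h p - (k : ℝ) / 4 * h p - (9 * (k : ℝ) + 153) / 64 * h p := by
    have g1 : (k : ℝ) * h p - (k : ℝ) / 4 * h p - (9 * (k : ℝ) + 153) / 64 * h p = (39 * (k : ℝ) - 153) / 64 * h p := by
      ring
    rw [g1]
    apply mul_le_mul _ h20 (by norm_num) _
    · linarith
    · linarith
  norm_num at f7 f8
  linarith

end ETT
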