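import Pool.Agent.Lib.MP_a7ed83_ag.B.B6b

/-! B6c (70 minutes). The packing theorem.
PROOF. If `E` is empty nothing is to show. Let `p₀` minimise `h` on `E`.
`E = small ∪ mid ∪ big`, small: `h p ≤ 20` (`small_card`), mid: `20 < h p ≤ 16 h p₀`
(`ring_card` with `R = max 20 (h p₀)`, `c = 16`), big: `20 < h p`, `16 h p₀ < h p`. For `p` in
big let `n = ‖p - p₀‖ > 0` and `σ p = (⌊32 i P / n⌋, ⌊32 j S / n⌋)`, an element of
`[-32, 32]²`. For each `t` the fibre `F_t` of `σ` in big: if nonempty let `p₁` minimise `h` on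
`F_t`; by `sector` (equal floors differ by less than 1) every `p' ∈ F_t` has
`h p' ≤ 60 h p₁`, so `ring_card` with `R = h p₁`, `c = 60` gives `card F_t ≤ 1081^2`
(`Finset.card_le_mul_card_image` or `Finset.card_eq_sum_card_fiberwise`). -/

namespace ETT

theorem packing (κ : ℝ) (hκ : 0 < κ) : ∃ B : ℕ, ∀ (P S : ℝ) (N : ℤ → ℤ → ℝ)
    (E : Finset (ℤ × ℤ)) (h : ℤ × ℤ → ℝ), PK P S N E h → κ ≤ P → κ ≤ S → E.card ≤ B := by
  classical
  obtain ⟨M, hM⟩ : ∃ M : ℕ, M = (18 * 60 + 1) ^ 2 := ⟨_, rfl⟩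
  obtain ⟨M', hM'⟩ : ∃ M' : ℕ, M' = (18 * 16 + 1) ^ 2 := ⟨_, rfl⟩
  obtain ⟨K, hK⟩ : ∃ K : ℕ, K = (2 * ⌈60 / κ⌉₊ + 1) ^ 2 := ⟨_, rfl⟩
  obtain ⟨L, hL⟩ : ∃ L : ℕ, L = 65 ^ 2 := ⟨_, rfl⟩
  refine ⟨K + M' + M * L, ?_⟩
  intro P S N E h H hP hS
  rcases E.eq_empty_or_nonempty with hE | hE
  · rw [hE]
    simp
  obtain ⟨p₀, hp₀, hmin⟩ := E.exists_min_image h hE
  set small := E.filter (fun p => h p ≤ 20) with hsmall
  set mid := E.filter (fun p => 20 < h p ∧ h p ≤ 16 * h p₀) with hmid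
  set big := E.filter (fun p => 20 < h p ∧ 16 * h p₀ < h p) with hbig
  have hsub : E ⊆ (small ∪ mid) ∪ big := by
    intro p hp
    simp only [Finset.mem_union, hsmall, hmid, hbig, Finset.mem_filter]
    rcases le_or_gt (h p) 20 with h1 | h1
    · exact Or.inl (Or.inl ⟨hp, h1⟩)
    · rcases le_or_gt (h p) (16 * h p₀) with h2 | h2
      · exact Or.inl (Or.inr ⟨hp, h1, h2⟩)
      · exact Or.inr ⟨hp, h1, h2⟩
  have c1 : small.card ≤ K := by
    rw [hK]
    apply small_card H p₀ hp₀ hmin κ hκ hP hS small (Finset.filter_subset _ _)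
    intro p hp
    exact (Finset.mem_filter.mp hp).2
  have c2 : mid.card ≤ M' := by
    rw [hM']
    apply ring_card H p₀ hp₀ hmin (max 20 (h p₀)) (le_max_left _ _) 16 mid (Finset.filter_subset _ _)
    · intro p hp
      have hp2 := Finset.mem_filter.mp hp
      exact max_le hp2.2.1.le (hmin p hp2.1)
    · intro p hp
      have hp2 := Finset.mem_filter.mp hp
      have := le_max_right (20 : ℝ) (h p₀)
      push_cast
      linarith [hp2.2.2]
  have c3 : big.card ≤ M * L := by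
    let n : ℤ × ℤ → ℝ := fun p => max (|((p.1 - p₀.1 : ℤ) : ℝ)| * P) (|((p.2 - p₀.2 : ℤ) : ℝ)| * S)
    let σ : ℤ × ℤ → ℤ × ℤ := fun p =>
      (⌊32 * (((p.1 - p₀.1 : ℤ) : ℝ) * P / n p)⌋, ⌊32 * (((p.2 - p₀.2 : ℤ) : ℝ) * S / n p)⌋)
    have hn0 : ∀ p, 0 ≤ n p := fun p =>
      le_max_of_le_left (mul_nonneg (abs_nonneg _) H.hP.le)
    have hfl : ∀ x m : ℝ, 0 ≤ m → |x| ≤ m → ⌊32 * (x / m)⌋ ∈ Finset.Icc (-32 : ℤ) 32 := by
      intro x m hm hx
      have h1 : |x / m| ≤ 1 := by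
        rw [abs_div, abs_of_nonneg hm]
        exact div_le_one_of_le₀ hx hm
      rw [abs_le] at h1
      rw [Finset.mem_Icc]
      constructor
      · rw [Int.le_floor]
        push_cast
        linarith [h1.1]
      · have h2 := Int.floor_le (32 * (x / m))
        have h3 : ((⌊32 * (x / m)⌋ : ℤ) : ℝ) ≤ ((32 : ℤ) : ℝ) := by
          push_cast
          linarith [h1.2]
        exact_mod_cast h3
    have habs : ∀ (i : ℤ) (T : ℝ), 0 < T → |((i : ℝ)) * T| = |(i : ℝ)| * T := by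
      intro i T hT
      rw [abs_mul, abs_of_pos hT]
    obtain ⟨T, hT⟩ : ∃ T : Finset (ℤ × ℤ), T = Finset.Icc (-32 : ℤ) 32 ×ˢ Finset.Icc (-32 : ℤ) 32 := ⟨_, rfl⟩
    have hmap : ∀ p ∈ big, σ p ∈ T := by
      intro p _
      rw [hT, Finset.mem_product]
      refine ⟨hfl _ _ (hn0 p) ?_, hfl _ _ (hn0 p) ?_⟩
      · rw [habs _ _ H.hP]
        exact le_max_left _ _
      · rw [habs _ _ H.hS]
        exact le_max_right _ _
    have hcardt : T.card = L := by
      rw [hT, hL, Finset.card_product, Int.card_Icc]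
      have h65 : ((32 : ℤ) + 1 - -32).toNat = 65 := by omega
      rw [h65, sq]
    suffices hfib : ∀ t ∈ T,
        (big.filter (fun p => σ p = t)).card ≤ M by
      have hm := Finset.card_le_mul_card_image_of_maps_to hmap M hfib
      rw [hcardt] at hm
      exact hm
    intro t _
    rcases (big.filter (fun p => σ p = t)).eq_empty_or_nonempty with hF | hF
    · rw [hF]
      simp
    obtain ⟨p₁, hp₁, hmin₁⟩ := (big.filter (fun p => σ p = t)).exists_min_image h hF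
    obtain ⟨hp₁b, hσ₁⟩ := Finset.mem_filter.mp hp₁
    obtain ⟨hp₁E, h20, h16⟩ := Finset.mem_filter.mp hp₁b
    rw [hM]
    apply ring_card H p₀ hp₀ hmin (h p₁) h20.le 60 (big.filter (fun p => σ p = t))
      ((Finset.filter_subset _ _).trans (Finset.filter_subset _ _))
    · intro p hp
      exact hmin₁ p hp
    · intro p hp
      obtain ⟨hpb, hσ⟩ := Finset.mem_filter.mp hp
      obtain ⟨hpE, h20', h16'⟩ := Finset.mem_filter.mp hpb
      by_contra hcon
      push Not at hcon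
      have hs : σ p = σ p₁ := hσ.trans hσ₁.symm
      have e1 : ⌊32 * (((p.1 - p₀.1 : ℤ) : ℝ) * P / n p)⌋ = ⌊32 * (((p₁.1 - p₀.1 : ℤ) : ℝ) * P / n p₁)⌋ :=
        congrArg Prod.fst hs
      have e2 : ⌊32 * (((p.2 - p₀.2 : ℤ) : ℝ) * S / n p)⌋ = ⌊32 * (((p₁.2 - p₀.2 : ℤ) : ℝ) * S / n p₁)⌋ :=
        congrArg Prod.snd hs
      exact sector H p₀ hp₀ p₁ p hp₁E hpE h16 h20.le (by push_cast at hcon; exact hcon) (n p₁) (n p) rfl rfl
        (Int.abs_sub_lt_one_of_floor_eq_floor e1).le (Int.abs_sub_lt_one_of_floor_eq_floor e2).le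
  calc E.card ≤ ((small ∪ mid) ∪ big).card := Finset.card_le_card hsub
    _ ≤ (small ∪ mid).card + big.card := Finset.card_union_le _ _
    _ ≤ (small.card + mid.card) + big.card := by
      have := Finset.card_union_le small mid
      omega
    _ ≤ _ := by omega

end ETT
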