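import Pool.Agent.Lib.MP_a7ed83_ag.B.B5
import Pool.Agent.Lib.MP_a7ed83_ag.B.B6c

/-! B7 (80 minutes). The two term exponential equation over a field with heights.
PROOF. Let `B` be the bound of `packing κ`. It suffices to bound every finite subset of the set
(`Set.encard_le_coe_iff_finite_ncard_le`/ or: if the encard is > B there is a finite subset with
`B+1` elements, `Set.exists_subset_encard_eq`). Map it to `E : Finset (ℤ × ℤ)`. Put
`P = nh1 l`, `S = nh1 m`, `N i j = nh ![l^i, m^j, 1]` (zpow), `h p = nh ![a l^p.1, b m^p.2, 1]`.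
`lowP`, `lowS`, `upp`: `nh_lower`, `nh_upper`, `nh1_zpow`. `H1`: `x = a l^p.1`, `y = b m^p.2`,
`ξ = l^(p'.1 - p.1)`, `η = m^(p'.2 - p.2)`; `z = ![x, y, 1]` is orthogonal to `![1, 1, -1]`
(height 0, `nh_one`) and to `![ξ, η, -1]` (`nh_neg`), which are not proportional since
`ξ ≠ 1` or `η ≠ 1` (`l^i = 1` with `i ≠ 0` contradicts `nh1 (l^i) = |i| nh1 l > 0`,
`nh1 1 = 0`); `nh_cross`. `H2`: `![ξ, η, 1] = ![x', y', 1] * ![x⁻¹, y⁻¹, 1]`, `nh_mul_le`,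
`nh_inv`. `H2'`: `![x', y', 1] = ![x, y, 1] * ![ξ, η, 1]`. `H3`: `key_gap` for
`x = a l^p.1`, `y`, `ξ = x' / x^(2k+1)`, `η = y' / y^(2k+1)`;
`![ξ, η, 1] = ![x₀⁻¹, y₀⁻¹, 1]^(2k) * ![l^e₁, m^e₂, 1]` with
`e₁ = (p'.1 - p₀.1) - (2k+1)(p.1 - p₀.1)` etc. (`x = x₀ l^(p.1-p₀.1)`), so
`nh ≤ 2k * 2 h p₀ + N e₁ e₂` (`nh_pow`, `nh_mul_le`, `nh_inv`). -/

open Height Polynomial

namespace ETT

private theorem B7_vm (K : Type) [Field K] (x y x' y' : K) :
    ![x, y, 1] * ![x', y', 1] = ![x * x', y * y', 1] := by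
  ext i
  fin_cases i <;> simp

private theorem B7_vp (K : Type) [Field K] (x y : K) (n : ℕ) :
    ![x, y, 1] ^ n = ![x ^ n, y ^ n, 1] := by
  ext i
  fin_cases i <;> simp

private theorem B7_step {K : Type} [Field K] {l a : K} (hl : l ≠ 0) (i j : ℤ) :
    a * l ^ j = (a * l ^ i) * l ^ (j - i) := by
  rw [mul_assoc, ← zpow_add₀ hl]
  congr 2
  ring

private theorem B7_quot {K : Type} [Field K] {l a : K} (hl : l ≠ 0) (ha : a ≠ 0) (i0 i j : ℤ)
    (k : ℕ) : (a * l ^ j) / (a * l ^ i) ^ (2 * k + 1) =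
      ((a * l ^ i0)⁻¹) ^ (2 * k) * l ^ ((j - i0) - (2 * (k : ℤ) + 1) * (i - i0)) := by
  have hx0 : a * l ^ i0 ≠ 0 := mul_ne_zero ha (zpow_ne_zero _ hl)
  have h1 : a * l ^ j = (a * l ^ i0) * l ^ (j - i0) := B7_step hl i0 j
  have h2 : a * l ^ i = (a * l ^ i0) * l ^ (i - i0) := B7_step hl i0 i
  have h3 : l ^ ((j - i0) - (2 * (k : ℤ) + 1) * (i - i0)) =
      l ^ (j - i0) / (l ^ (i - i0)) ^ (2 * k + 1) := by
    rw [zpow_sub₀ hl, mul_comm (2 * (k : ℤ) + 1), zpow_mul]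
    congr 1
    rw [← zpow_natCast]
    push_cast
    rfl
  have hl1 : l ^ (i - i0) ≠ 0 := zpow_ne_zero _ hl
  rw [h3, h1, h2]
  generalize a * l ^ i0 = X at hx0 ⊢
  generalize l ^ (i - i0) = U at hl1 ⊢
  generalize l ^ (j - i0) = V
  rw [inv_pow, mul_pow, pow_succ X (2 * k)]
  field_simp

private theorem B7_fin {κ : ℝ} (hκ : 0 < κ) {B : ℕ}
    (hB : ∀ (P S : ℝ) (N : ℤ → ℤ → ℝ) (E : Finset (ℤ × ℤ)) (h : ℤ × ℤ → ℝ),
      PK P S N E h → κ ≤ P → κ ≤ S → E.card ≤ B)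
    (K : Type) [Field K] [AdmissibleAbsValues K]
    [CharZero K] (hK : 0 < totalWeight K) (l m a b : K) (hl : l ≠ 0) (hm : m ≠ 0)
    (hl1 : κ ≤ nh1 l) (hm1 : κ ≤ nh1 m) (ha : a ≠ 0) (hb : b ≠ 0) (F : Finset (ℕ × ℕ))
    (hF : ∀ z ∈ F, a * l ^ z.1 + b * m ^ z.2 = 1) : F.card ≤ B := by
  classical
  obtain ⟨E, hEd⟩ : ∃ E : Finset (ℤ × ℤ), E = F.image (fun z => ((z.1 : ℤ), (z.2 : ℤ))) := ⟨_, rfl⟩
  have hcard : E.card = F.card := by
    rw [hEd]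
    apply Finset.card_image_of_injective
    intro z z' hz
    have h1 := congrArg Prod.fst hz
    have h2 := congrArg Prod.snd hz
    simp only [Nat.cast_inj] at h1 h2
    exact Prod.ext h1 h2
  have hE : ∀ p ∈ E, a * l ^ p.1 + b * m ^ p.2 = 1 := by
    intro p hp
    rw [hEd, Finset.mem_image] at hp
    obtain ⟨z, hz, rfl⟩ := hp
    simp only [zpow_natCast]
    exact hF z hz
  rw [← hcard]
  have hP : 0 < nh1 l := lt_of_lt_of_le hκ hl1
  have hS : 0 < nh1 m := lt_of_lt_of_le hκ hm1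
  have hxn : ∀ i : ℤ, a * l ^ i ≠ 0 := fun i => mul_ne_zero ha (zpow_ne_zero _ hl)
  have hyn : ∀ i : ℤ, b * m ^ i ≠ 0 := fun i => mul_ne_zero hb (zpow_ne_zero _ hm)
  have hone1 : nh1 (1 : K) = 0 := by
    unfold nh1
    rw [logHeight₁_one, zero_div]
  have hone : ∀ (c : K), 0 < nh1 c → ∀ i : ℤ, i ≠ 0 → c ^ i ≠ 1 := by
    intro c hc i hi h0
    have h1 := nh1_zpow c i
    rw [h0, hone1] at h1
    have h2 : 0 < |(i : ℝ)| := abs_pos.mpr (by exact_mod_cast hi)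
    have h3 := mul_pos h2 hc
    linarith
  refine hB (nh1 l) (nh1 m) (fun i j => nh ![l ^ i, m ^ j, 1]) E
    (fun p => nh ![a * l ^ p.1, b * m ^ p.2, 1]) ?_ hl1 hm1
  refine ⟨hP, hS, ?_, ?_, ?_, ?_, ?_, ?_, ?_, ?_⟩
  · intro i j
    rw [← nh1_zpow]
    exact (nh_lower _ _).1
  · intro i j
    rw [← nh1_zpow]
    exact (nh_lower _ _).2
  · intro i j
    rw [← nh1_zpow, ← nh1_zpow]
    exact nh_upper _ _
  · intro p
    exact nh_nonneg _
  · intro p hp p' hp' hne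
    have e1 := hE p hp
    have e2 := hE p' hp'
    have s1 := B7_step (a := a) hl p.1 p'.1
    have s2 := B7_step (a := b) hm p.2 p'.2
    have h1 := nh_cross hK ![1, 1, -1] ![l ^ (p'.1 - p.1), m ^ (p'.2 - p.2), -1]
      ![a * l ^ p.1, b * m ^ p.2, 1] ?_ ?_ ?_ ?_
    · rw [nh_one, nh_neg, add_zero] at h1
      exact h1
    · intro h0
      have h2 := congrFun h0 2
      simp at h2
    · rw [Fin.sum_univ_three]
      simp only [Matrix.cons_val_zero, Matrix.cons_val_one, Matrix.cons_val]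
      linear_combination e1
    · rw [Fin.sum_univ_three]
      simp only [Matrix.cons_val_zero, Matrix.cons_val_one, Matrix.cons_val]
      linear_combination e2 - s1 - s2
    · by_cases h2 : p'.1 = p.1
      · have h3 : p'.2 - p.2 ≠ 0 := by
          intro h4
          apply hne
          exact Prod.ext h2.symm (by omega)
        refine ⟨1, 2, ?_⟩
        simp only [Matrix.cons_val_one, Matrix.cons_val]
        intro h4
        apply hone m hS _ h3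
        linear_combination h4
      · have h3 : p'.1 - p.1 ≠ 0 := by omega
        refine ⟨0, 2, ?_⟩
        simp only [Matrix.cons_val_zero, Matrix.cons_val]
        intro h4
        apply hone l hP _ h3
        linear_combination h4
  · intro p _ p' _
    have s1 := B7_step (a := a) hl p.1 p'.1
    have s2 := B7_step (a := b) hm p.2 p'.2
    have h1 : ![l ^ (p'.1 - p.1), m ^ (p'.2 - p.2), 1] =
        ![a * l ^ p'.1, b * m ^ p'.2, 1] * ![(a * l ^ p.1)⁻¹, (b * m ^ p.2)⁻¹, 1] := by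
      rw [B7_vm, s1, s2]
      have h2 := hxn p.1
      have h3 := hyn p.2
      congr 1
      · rw [mul_comm (a * l ^ p.1), mul_assoc, mul_inv_cancel₀ h2, mul_one]
      · congr 1
        rw [mul_comm (b * m ^ p.2), mul_assoc, mul_inv_cancel₀ h3, mul_one]
    rw [h1]
    have h4 := nh_mul_le ![a * l ^ p'.1, b * m ^ p'.2, 1] ![(a * l ^ p.1)⁻¹, (b * m ^ p.2)⁻¹, 1]
    have h5 := nh_inv (a * l ^ p.1) (b * m ^ p.2) (hxn _) (hyn _)
    linarith
  · intro p _ p' _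
    have s1 := B7_step (a := a) hl p.1 p'.1
    have s2 := B7_step (a := b) hm p.2 p'.2
    have h1 : ![a * l ^ p'.1, b * m ^ p'.2, 1] =
        ![a * l ^ p.1, b * m ^ p.2, 1] * ![l ^ (p'.1 - p.1), m ^ (p'.2 - p.2), 1] := by
      rw [B7_vm, s1, s2]
    rw [h1]
    exact nh_mul_le _ _
  · intro p₀ _ p hp p' hp' k hk
    have e1 := hE p hp
    have e2 := hE p' hp'
    have h1 := key_gap hK (a * l ^ p.1) (b * m ^ p.2)
      ((a * l ^ p'.1) / (a * l ^ p.1) ^ (2 * k + 1)) ((b * m ^ p'.2) / (b * m ^ p.2) ^ (2 * k + 1))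
      (hxn _) (hyn _) e1 k hk (by
        rw [mul_div_cancel₀ _ (pow_ne_zero _ (hxn _)), mul_div_cancel₀ _ (pow_ne_zero _ (hyn _))]
        exact e2)
    have h2 : ![(a * l ^ p'.1) / (a * l ^ p.1) ^ (2 * k + 1),
        (b * m ^ p'.2) / (b * m ^ p.2) ^ (2 * k + 1), 1] =
        ![(a * l ^ p₀.1)⁻¹, (b * m ^ p₀.2)⁻¹, 1] ^ (2 * k) *
        ![l ^ ((p'.1 - p₀.1) - (2 * (k : ℤ) + 1) * (p.1 - p₀.1)),
          m ^ ((p'.2 - p₀.2) - (2 * (k : ℤ) + 1) * (p.2 - p₀.2)), 1] := by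
      rw [B7_vp, B7_vm, ← B7_quot hl ha, ← B7_quot hm hb]
    rw [h2] at h1
    have h3 := nh_mul_le (![(a * l ^ p₀.1)⁻¹, (b * m ^ p₀.2)⁻¹, 1] ^ (2 * k))
        ![l ^ ((p'.1 - p₀.1) - (2 * (k : ℤ) + 1) * (p.1 - p₀.1)),
          m ^ ((p'.2 - p₀.2) - (2 * (k : ℤ) + 1) * (p.2 - p₀.2)), 1]
    rw [nh_pow] at h3
    have h4 := nh_inv (a * l ^ p₀.1) (b * m ^ p₀.2) (hxn _) (hyn _)
    have h5 : ((2 * k : ℕ) : ℝ) * nh ![(a * l ^ p₀.1)⁻¹, (b * m ^ p₀.2)⁻¹, 1] ≤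
        ((2 * k : ℕ) : ℝ) * (2 * nh ![a * l ^ p₀.1, b * m ^ p₀.2, 1]) :=
      mul_le_mul_of_nonneg_left h4 (Nat.cast_nonneg _)
    push_cast at h5 h3
    linarith

theorem two_term (κ : ℝ) (hκ : 0 < κ) : ∃ B : ℕ, ∀ (K : Type) [Field K] [AdmissibleAbsValues K]
    [CharZero K], 0 < totalWeight K → ∀ l m a b : K, l ≠ 0 → m ≠ 0 → κ ≤ nh1 l → κ ≤ nh1 m →
    a ≠ 0 → b ≠ 0 → {z : ℕ × ℕ | a * l ^ z.1 + b * m ^ z.2 = 1}.encard ≤ B := by
  obtain ⟨B, hB⟩ := packing κ hκ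
  refine ⟨B, ?_⟩
  intro K _ _ _ hK l m a b hl hm hl1 hm1 ha hb
  by_contra hcon
  rw [not_le] at hcon
  have h1 : ((B + 1 : ℕ) : ℕ∞) ≤ {z : ℕ × ℕ | a * l ^ z.1 + b * m ^ z.2 = 1}.encard := by
    push_cast
    exact Order.add_one_le_of_lt hcon
  obtain ⟨t, ht, hc⟩ := Set.exists_subset_encard_eq h1
  have hfin : t.Finite := Set.finite_of_encard_eq_coe hc
  have h2 := B7_fin hκ hB K hK l m a b hl hm hl1 hm1 ha hb hfin.toFinset (fun z hz => by
    have := ht (hfin.mem_toFinset.mp hz)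
    exact this)
  rw [hfin.encard_eq_coe_toFinset_card] at hc
  have h3 : hfin.toFinset.card = B + 1 := by exact_mod_cast hc
  omega

end ETT
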