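import Pool.Agent.Lib.MP_a7ed83_ag.B.B7

/-! B8 (100 minutes). The two term equation over the complex numbers, for Weil type numbers.
PROOF. Let `B` be the constant of `two_term (log 2 / D)` (for `D = 0` there is no root of a monic
polynomial of degree 0; take `max 1 D`), and use `max B 1`. `height_lower`: let
`K` be a number field, `l : K` a root of `p` (monic, integral, degree ≤ D, all complex roots of
absolute value `√δ`, `δ > 1`). Every archimedean absolute value of `K` is `x ↦ ‖σ x‖` with a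
complex embedding `σ` and `σ l` is a root of `p`, so it takes the value `√δ` at `l`; the
nonarchimedean factors of `mulHeight₁` are `≥ 1`; so `mulHeight₁ l ≥ (√δ)^(totalWeight K)` and
`nh1 l ≥ log δ / 2`. The constant coefficient of `p` is an integer of absolute value
`(√δ)^(natDegree p) > 1` (product of the roots: `Polynomial.prod_roots_eq_coeff_zero_of_monic_of_splits`
or similar), so `≥ 2`, and `log δ / 2 ≥ log 2 / natDegree p ≥ log 2 / D`.
`two_term_complex`: let `K = IntermediateField.adjoin ℚ {l, m}` (a number field: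
`l, m` are algebraic). If the set has at most one element we are done. Otherwise take
`(i,j) ≠ (i',j')` in it; as `l`, `m` are no roots of unity and nonzero (`‖l‖ > 1`), `i ≠ i'` and
`j ≠ j'` (if `i = i'` then `b m^j = b m^j'`). The determinant
`d = l^i m^j' - l^i' m^j` is nonzero (if it is 0 the two rows `(l^i, m^j)`, `(l^i', m^j')` are
proportional with factor `c`, the equations give `c = 1` and `l^i = l^i'`, contradiction), and
`a = (m^j' - m^j)/d`, `b = (l^i - l^i')/d` lie in `K`. So the set is the same set for the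
elements of `K`. -/

open Height Polynomial

namespace ETT

/-- The product of a multiset of complex numbers of absolute value `r`. -/
private theorem B8_prod (r : ℝ) (s : Multiset ℂ) (h : ∀ z ∈ s, ‖z‖ = r) : ‖s.prod‖ = r ^ s.card := by
  induction s using Multiset.induction_on with
  | empty => simp
  | cons a s ih =>
    rw [Multiset.prod_cons, norm_mul, h a (Multiset.mem_cons_self a s), ih (fun z hz => h z (Multiset.mem_cons_of_mem hz)),
      Multiset.card_cons, pow_succ, mul_comm]

private theorem B8_log (p : ℤ[X]) (hm : p.Monic) (δ : ℝ) (hδ : 1 < δ) (hr : ∀ z : ℂ, aeval z p = 0 → ‖z‖ ^ 2 = δ)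
    (h0 : 1 ≤ p.natDegree) : Real.log 2 ≤ p.natDegree * (Real.log δ / 2) := by
  set q : ℂ[X] := p.map (algebraMap ℤ ℂ) with hq
  have hqm : q.Monic := hm.map _
  have hqs : q.Splits := IsAlgClosed.splits q
  have hqd : q.natDegree = p.natDegree := hm.natDegree_map _
  have hδ0 : 0 < δ := by linarith
  have hroot : ∀ z ∈ q.roots, ‖z‖ = Real.sqrt δ := by
    intro z hz
    have h1 : aeval z p = 0 := by
      have h2 := (mem_roots hqm.ne_zero).1 hz
      rw [IsRoot.def, hq, eval_map_algebraMap] at h2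
      exact h2
    have h2 := hr z h1
    rw [← h2, Real.sqrt_sq (norm_nonneg z)]
  have h1 := hqs.coeff_zero_eq_prod_roots_of_monic hqm
  have h2 : ‖q.coeff 0‖ = Real.sqrt δ ^ p.natDegree := by
    rw [h1, norm_mul, norm_pow, norm_neg, norm_one, one_pow, one_mul, B8_prod _ _ hroot, ← hqs.natDegree_eq_card_roots, hqd]
  have h3 : ‖q.coeff 0‖ = ((p.coeff 0).natAbs : ℝ) := by
    rw [hq, coeff_map, eq_intCast, Complex.norm_intCast, Nat.cast_natAbs, Int.cast_abs]
  have hs1 : 1 < Real.sqrt δ := by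
    rw [Real.lt_sqrt (by norm_num)]
    linarith
  have h4 : (1 : ℝ) < ((p.coeff 0).natAbs : ℝ) := by
    rw [← h3, h2]
    exact one_lt_pow₀ hs1 (by omega)
  have h5 : 2 ≤ (p.coeff 0).natAbs := by
    have : 1 < (p.coeff 0).natAbs := by exact_mod_cast h4
    omega
  have h6 : (2 : ℝ) ≤ Real.sqrt δ ^ p.natDegree := by
    rw [← h2, h3]
    exact_mod_cast h5
  have h7 := Real.log_le_log (by norm_num) h6
  rw [Real.log_pow, Real.log_sqrt hδ0.le] at h7
  exact h7

private theorem B8_deg {A : Type*} [CommRing A] [Nontrivial A] (p : ℤ[X]) (hm : p.Monic) (l : A) (hl : aeval l p = 0) : 1 ≤ p.natDegree := by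
  by_contra h
  have h1 : p.natDegree = 0 := by omega
  have h2 : p = 1 := hm.natDegree_eq_zero.1 h1
  rw [h2, map_one] at hl
  exact one_ne_zero hl

theorem height_lower (D : ℕ) (K : Type) [Field K] [NumberField K] (p : ℤ[X]) (hm : p.Monic)
    (hD : p.natDegree ≤ D) (δ : ℝ) (hδ : 1 < δ)
    (hr : ∀ z : ℂ, aeval z p = 0 → ‖z‖ ^ 2 = δ) (l : K) (hl : aeval l p = 0) :
    Real.log 2 / D ≤ nh1 l := by
  have hn := B8_deg p hm l hl
  have hδ0 : 0 < δ := by linarith
  have hlogδ : 0 < Real.log δ := Real.log_pos hδ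
  have hlog := B8_log p hm δ hδ hr hn
  have hnr : (1 : ℝ) ≤ p.natDegree := by exact_mod_cast hn
  have hDr : (p.natDegree : ℝ) ≤ D := by exact_mod_cast hD
  have hw : (0 : ℝ) < totalWeight K := by exact_mod_cast NumberField.totalWeight_pos K
  have hv : ∀ v : NumberField.InfinitePlace K, Real.log δ / 2 ≤ Real.posLog (v l) := by
    intro v
    have h1 : aeval (v.embedding l) p = 0 := by
      have h2 : aeval (v.embedding l) p = v.embedding (aeval l p) := by
        rw [aeval_def, aeval_def, hom_eval₂]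
        congr 1
        exact RingHom.ext_int _ _
      rw [h2, hl, map_zero]
    have h2 := hr _ h1
    rw [NumberField.InfinitePlace.norm_embedding_eq] at h2
    have h3 : v l = Real.sqrt δ := by
      rw [← h2, Real.sqrt_sq (apply_nonneg v l)]
    rw [h3, Real.posLog_eq_log_max_one (Real.sqrt_nonneg δ)]
    refine le_trans (le_of_eq (Real.log_sqrt hδ0.le).symm) ?_
    exact Real.log_le_log (Real.sqrt_pos.2 hδ0) (le_max_right _ _)
  have h1 : (totalWeight K : ℝ) * (Real.log δ / 2) ≤ logHeight₁ l := by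
    rw [NumberField.logHeight₁_eq, NumberField.totalWeight_eq_sum_mult]
    have h2 : 0 ≤ ∑ᶠ v : NumberField.FinitePlace K, Real.posLog (v l) := finsum_nonneg fun v => Real.posLog_nonneg
    push_cast
    rw [Finset.sum_mul]
    have h3 : ∑ v : NumberField.InfinitePlace K, (v.mult : ℝ) * (Real.log δ / 2) ≤
        ∑ v : NumberField.InfinitePlace K, (v.mult : ℝ) * Real.posLog (v l) :=
      Finset.sum_le_sum fun v _ => mul_le_mul_of_nonneg_left (hv v) (Nat.cast_nonneg _)
    linarith
  have h2 : Real.log δ / 2 ≤ nh1 l := by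
    unfold nh1
    rw [le_div_iff₀ hw, mul_comm]
    exact h1
  refine le_trans ?_ h2
  have hD0 : (0 : ℝ) < D := by linarith
  rw [div_le_iff₀ hD0]
  have h3 : (p.natDegree : ℝ) * (Real.log δ / 2) ≤ D * (Real.log δ / 2) := mul_le_mul_of_nonneg_right hDr (by linarith)
  linarith

private theorem B8_pow {m : ℂ} (hm : 1 < ‖m‖) {j j' : ℕ} (h : m ^ j = m ^ j') : j = j' := by
  have h1 := congrArg (fun z : ℂ => ‖z‖) h
  simp only [norm_pow] at h1
  exact pow_right_injective₀ (by linarith) hm.ne' h1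

theorem two_term_complex (D : ℕ) : ∃ B : ℕ, ∀ (p p' : ℤ[X]) (δ ε : ℝ), p.Monic → p'.Monic →
    p.natDegree ≤ D → p'.natDegree ≤ D → 1 < δ → 1 < ε →
    (∀ z : ℂ, aeval z p = 0 → ‖z‖ ^ 2 = δ) → (∀ z : ℂ, aeval z p' = 0 → ‖z‖ ^ 2 = ε) →
    ∀ l m a b : ℂ, aeval l p = 0 → aeval m p' = 0 → a ≠ 0 → b ≠ 0 →
    {z : ℕ × ℕ | a * l ^ z.1 + b * m ^ z.2 = 1}.encard ≤ B := by
  obtain ⟨B, hB⟩ := two_term (Real.log 2 / (max 1 D : ℕ)) (div_pos (Real.log_pos (by norm_num)) (by positivity))
  refine ⟨max B 1, ?_⟩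
  intro p p' δ ε hp hp' hD hD' hδ hε hr hr' l m a b hl hm ha hb
  by_cases h1 : {z : ℕ × ℕ | a * l ^ z.1 + b * m ^ z.2 = 1}.encard ≤ 1
  · refine h1.trans ?_
    exact_mod_cast le_max_right B 1
  rw [Set.encard_le_one_iff] at h1
  push Not at h1
  obtain ⟨⟨i, j⟩, ⟨i', j'⟩, hz, hz', hne⟩ := h1
  simp only [Set.mem_ofPred_eq] at hz hz'
  have hln : 1 < ‖l‖ := by
    have h2 := hr l hl
    have h3 : (1 : ℝ) < ‖l‖ ^ 2 := by rw [h2]; exact hδ
    by_contra h4
    push Not at h4
    have h5 : ‖l‖ ^ 2 ≤ 1 := pow_le_one₀ (norm_nonneg l) h4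
    linarith
  have hmn : 1 < ‖m‖ := by
    have h2 := hr' m hm
    have h3 : (1 : ℝ) < ‖m‖ ^ 2 := by rw [h2]; exact hε
    by_contra h4
    push Not at h4
    have h5 : ‖m‖ ^ 2 ≤ 1 := pow_le_one₀ (norm_nonneg m) h4
    linarith
  have hl0 : l ≠ 0 := by
    intro h
    rw [h, norm_zero] at hln
    linarith
  have hm0 : m ≠ 0 := by
    intro h
    rw [h, norm_zero] at hmn
    linarith
  have hjj : j ≠ j' := by
    intro h
    apply hne
    rw [h] at hz ⊢
    have h2 : a * l ^ i = a * l ^ i' := by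
      have := hz.trans hz'.symm
      exact add_right_cancel this
    rw [B8_pow hln (mul_left_cancel₀ ha h2)]
  have hii : i ≠ i' := by
    intro h
    apply hne
    rw [h] at hz ⊢
    have h2 : b * m ^ j = b * m ^ j' := by
      have := hz.trans hz'.symm
      exact add_left_cancel this
    rw [B8_pow hmn (mul_left_cancel₀ hb h2)]
  have hd1 : a * (l ^ i * m ^ j' - l ^ i' * m ^ j) = m ^ j' - m ^ j := by
    linear_combination m ^ j' * hz - m ^ j * hz'
  have hd2 : b * (l ^ i * m ^ j' - l ^ i' * m ^ j) = l ^ i - l ^ i' := by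
    linear_combination l ^ i * hz' - l ^ i' * hz
  have hd0 : l ^ i * m ^ j' - l ^ i' * m ^ j ≠ 0 := by
    intro h
    rw [h, mul_zero] at hd1
    exact hjj (B8_pow hmn (sub_eq_zero.1 hd1.symm)).symm
  have ha' : a = (m ^ j' - m ^ j) / (l ^ i * m ^ j' - l ^ i' * m ^ j) := by
    rw [eq_div_iff hd0]
    exact hd1
  have hb' : b = (l ^ i - l ^ i') / (l ^ i * m ^ j' - l ^ i' * m ^ j) := by
    rw [eq_div_iff hd0]
    exact hd2
  -- the number field
  have hil : IsIntegral ℚ l := by
    have h2 : IsIntegral ℤ l := ⟨p, hp, by rw [← aeval_def]; exact hl⟩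
    exact h2.tower_top
  have him : IsIntegral ℚ m := by
    have h2 : IsIntegral ℤ m := ⟨p', hp', by rw [← aeval_def]; exact hm⟩
    exact h2.tower_top
  let F : IntermediateField ℚ ℂ := IntermediateField.adjoin ℚ {l, m}
  have hfin : FiniteDimensional ℚ F := IntermediateField.finiteDimensional_adjoin (by
    intro x hx
    rcases hx with hx | hx
    · rw [hx]
      exact hil
    · rw [Set.mem_singleton_iff.1 hx]
      exact him)
  have hnf : NumberField F := {}
  have hlF : l ∈ F := IntermediateField.subset_adjoin ℚ _ (by simp)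
  have hmF : m ∈ F := IntermediateField.subset_adjoin ℚ _ (by simp)
  have haF : a ∈ F := by
    rw [ha']
    exact div_mem (sub_mem (pow_mem hmF _) (pow_mem hmF _)) (sub_mem (mul_mem (pow_mem hlF _) (pow_mem hmF _)) (mul_mem (pow_mem hlF _) (pow_mem hmF _)))
  have hbF : b ∈ F := by
    rw [hb']
    exact div_mem (sub_mem (pow_mem hlF _) (pow_mem hlF _)) (sub_mem (mul_mem (pow_mem hlF _) (pow_mem hmF _)) (mul_mem (pow_mem hlF _) (pow_mem hmF _)))
  have hroot : ∀ (x : F) (q : ℤ[X]), aeval (x : ℂ) q = 0 → aeval x q = 0 := by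
    intro x q hq
    have h2 : ((aeval x q : F) : ℂ) = aeval (x : ℂ) q := by
      rw [aeval_def, aeval_def]
      have h3 := hom_eval₂ q (algebraMap ℤ F) (algebraMap F ℂ) x
      refine h3.trans ?_
      congr 1
    rw [hq] at h2
    exact_mod_cast h2
  have hDm : ∀ n : ℕ, n ≤ D → n ≤ max 1 D := fun n h => h.trans (le_max_right 1 D)
  have e1 := height_lower (max 1 D) F p hp (hDm _ hD) δ hδ hr ⟨l, hlF⟩ (hroot ⟨l, hlF⟩ p hl)
  have e2 := height_lower (max 1 D) F p' hp' (hDm _ hD') ε hε hr' ⟨m, hmF⟩ (hroot ⟨m, hmF⟩ p' hm)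
  have e3 := hB F (NumberField.totalWeight_pos F) ⟨l, hlF⟩ ⟨m, hmF⟩ ⟨a, haF⟩ ⟨b, hbF⟩
    (fun h => hl0 (congrArg Subtype.val h)) (fun h => hm0 (congrArg Subtype.val h)) e1 e2
    (fun h => ha (congrArg Subtype.val h)) (fun h => hb (congrArg Subtype.val h))
  have e4 : {z : ℕ × ℕ | a * l ^ z.1 + b * m ^ z.2 = 1} =
      {z : ℕ × ℕ | (⟨a, haF⟩ : F) * (⟨l, hlF⟩ : F) ^ z.1 + (⟨b, hbF⟩ : F) * (⟨m, hmF⟩ : F) ^ z.2 = 1} := by
    ext z
    simp only [Set.mem_ofPred_eq]
    constructor
    · intro h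
      apply Subtype.ext
      push_cast
      exact h
    · intro h
      have h2 := congrArg (fun x : F => (x : ℂ)) h
      push_cast at h2
      exact h2
  rw [e4]
  refine e3.trans ?_
  exact_mod_cast le_max_left B 1

end ETT
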